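import Mathlib

/-!
The polynomials `N = X^(p+1) + M` such that `N / X` has exactly two critical points, both
over `0`, of multiplicities `a` and `2`.
-/

set_option autoImplicit false

namespace Pool.Agent.H19Z.IC

open Polynomial

/-- the data defining the cover `x = N(z) / z` -/
structure Data (k : Type*) [Field k] (p a : ℕ) where
  M : k[X]
  b1 : k
  b2 : k
  c : k
  h1 : k[X]
  h2 : k[X]
  deg : M.natDegree = a
  b1ne : b1 ≠ 0
  b2ne : b2 ≠ 0
  cne : c ≠ 0
  hD : X * derivative M - M = C c * (X - C b1) ^ (a - 1) * (X - C b2)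
  hN1 : X ^ (p + 1) + M = (X - C b1) ^ a * h1
  hh1 : h1.eval b1 ≠ 0
  hN2 : X ^ (p + 1) + M = (X - C b2) ^ 2 * h2
  hh2 : h2.eval b2 ≠ 0

variable {k : Type*} [Field k]

theorem mult_lemma {P D : k[X]} {β : k} (hβ : β ≠ 0) {n : ℕ} (hn : 0 < n)
    (hnp : ∀ j, 0 < j → j < n → (j : k) ≠ 0) (hroot : P.eval β = 0)
    (hD : X * derivative P - P = (X - C β) ^ (n - 1) * D) (hD' : D.eval β ≠ 0) :
    ∃ h : k[X], P = (X - C β) ^ n * h ∧ h.eval β ≠ 0 := by
  have hXβ : (X - C β : k[X]) ≠ 0 := X_sub_C_ne_zero β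
  have hP0 : P ≠ 0 := by
    rintro rfl
    simp only [derivative_zero, mul_zero, sub_zero] at hD
    rcases mul_eq_zero.mp hD.symm with h | h
    · exact pow_ne_zero _ hXβ h
    · rw [h] at hD'; simp at hD'
  obtain ⟨Q, hQ, hQ'⟩ := exists_eq_pow_rootMultiplicity_mul_and_not_dvd P hP0 β
  have hQβ : Q.eval β ≠ 0 := by simpa [dvd_iff_isRoot] using hQ'
  have hj : 0 < P.rootMultiplicity β := (rootMultiplicity_pos hP0).mpr hroot
  obtain ⟨i, hi⟩ : ∃ i, P.rootMultiplicity β = i + 1 := ⟨P.rootMultiplicity β - 1, by omega⟩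
  rw [hi] at hQ
  obtain ⟨m, rfl⟩ : ∃ m, n = m + 1 := ⟨n - 1, by omega⟩
  have e : X * derivative P - P = (X - C β) ^ i *
      (X * ((i + 1 : ℕ) : k[X]) * Q + (X - C β) * (X * derivative Q - Q)) := by
    rw [hQ]
    simp only [derivative_mul, derivative_X_sub_C_pow, Nat.add_sub_cancel, map_natCast]
    ring
  rw [e, Nat.add_sub_cancel] at hD
  rcases lt_trichotomy i m with h | h | h
  · exfalso
    obtain ⟨d, rfl⟩ : ∃ d, m = i + (d + 1) := ⟨m - i - 1, by omega⟩
    rw [pow_add, mul_assoc ((X - C β) ^ i)] at hD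
    have h1 := congrArg (eval β) (mul_left_cancel₀ (pow_ne_zero i hXβ) hD)
    simp only [eval_add, eval_mul, eval_X, eval_natCast, eval_sub, eval_C, sub_self, zero_mul,
      add_zero, eval_pow, pow_succ, mul_zero] at h1
    exact mul_ne_zero (mul_ne_zero hβ (hnp (i + 1) (by omega) (by omega))) hQβ h1
  · subst h; exact ⟨Q, hQ, hQβ⟩
  · exfalso
    obtain ⟨d, rfl⟩ : ∃ d, i = m + (d + 1) := ⟨i - m - 1, by omega⟩
    rw [pow_add, mul_assoc] at hD
    have h1 := congrArg (eval β) (mul_left_cancel₀ (pow_ne_zero m hXβ) hD)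
    simp only [eval_mul, eval_sub, eval_X, eval_C, sub_self, eval_pow, pow_succ, mul_zero,
      zero_mul] at h1
    exact hD' h1.symm

theorem cast_ne_zero_of_lt {p : ℕ} [CharP k p] {j : ℕ} (h0 : 0 < j) (hj : j < p) :
    (j : k) ≠ 0 := by
  intro h
  have := Nat.le_of_dvd h0 ((CharP.cast_eq_zero_iff k p j).mp h)
  omega

theorem exists_M0 {p a : ℕ} [CharP k p] (ha : 2 ≤ a) (hap : a < p) (D : k[X])
    (hD : D.natDegree = a) (hD1 : D.coeff 1 = 0) :
    ∃ M : k[X], M.natDegree = a ∧ X * derivative M - M = D := by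
  classical
  set M : k[X] := ∑ j ∈ Finset.range (a + 1), monomial j (D.coeff j / ((j : k) - 1)) with hM
  have hc : ∀ j, M.coeff j = if j ∈ Finset.range (a + 1) then D.coeff j / ((j : k) - 1) else 0 := by
    intro j
    simp only [hM, finsetSum_coeff, coeff_monomial]
    rw [Finset.sum_ite_eq' (Finset.range (a + 1)) j (fun j => D.coeff j / ((j : k) - 1))]
  have hne : ∀ j, j ≤ a → j ≠ 1 → (j : k) - 1 ≠ 0 := by
    intro j hj hj1
    rcases j with _ | j
    · simp
    · have := cast_ne_zero_of_lt (k := k) (p := p) (j := j) (by omega) (by omega)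
      simpa using this
  have hXM : ∀ j : ℕ, (X * derivative M).coeff j = (j : k) * M.coeff j := by
    intro j
    rcases j with _ | j
    · simp
    · rw [coeff_X_mul, coeff_derivative]; push_cast; ring
  have hid : X * derivative M - M = D := by
    ext j
    rw [coeff_sub, hXM, hc]
    split_ifs with h
    · by_cases hj1 : j = 1
      · subst hj1; simp [hD1]
      · have := hne j (by simpa [Nat.lt_succ_iff] using h) hj1
        field_simp
    · rw [coeff_eq_zero_of_natDegree_lt (by rw [hD]; simpa using h)]; simp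
  refine ⟨M, ?_, hid⟩
  apply natDegree_eq_of_le_of_coeff_ne_zero
  · rw [natDegree_le_iff_coeff_eq_zero]
    intro j hj
    rw [hc, if_neg (by simpa using hj)]
  · rw [hc, if_pos (by simp)]
    refine div_ne_zero ?_ (hne a le_rfl (by omega))
    rw [← hD]
    apply leadingCoeff_ne_zero.mpr
    rintro rfl
    simp at hD; omega

theorem XD_add {p : ℕ} [CharP k p] (M : k[X]) :
    X * derivative (X ^ (p + 1) + M) - (X ^ (p + 1) + M) = X * derivative M - M := by
  rw [derivative_add, derivative_X_pow]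
  simp only [Nat.cast_add, CharP.cast_eq_zero, zero_add, Nat.cast_one, map_one, Nat.add_sub_cancel]
  ring

theorem exists_data {p a : ℕ} [Fact p.Prime] [CharP k p] (ha : 2 ≤ a) (hap : a < p) :
    Nonempty (Data k p a) := by
  obtain ⟨d, rfl⟩ : ∃ d, a = d + 2 := ⟨a - 2, by omega⟩
  set β : k := 1 - ((d + 2 : ℕ) : k) with hβ
  have hβ0 : β ≠ 0 := by
    have := cast_ne_zero_of_lt (k := k) (p := p) (j := d + 1) (by omega) (by omega)
    intro h; apply this
    rw [hβ] at h; push_cast at h ⊢; linear_combination -h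
  have hβ1 : β - 1 ≠ 0 := by
    have := cast_ne_zero_of_lt (k := k) (p := p) (j := d + 2) (by omega) hap
    intro h; apply this
    rw [hβ] at h; linear_combination -h
  have hlt : ∀ n, n ≤ d + 2 → ∀ j, 0 < j → j < n → (j : k) ≠ 0 := fun n hn j h0 hj =>
    cast_ne_zero_of_lt h0 (by omega)
  obtain ⟨M0, hM0, hid⟩ := exists_M0 (k := k) (p := p) (a := d + 2) ha hap
    ((X - C β) ^ (d + 1) * (X - C 1))
    (by
      rw [natDegree_mul (pow_ne_zero _ (X_sub_C_ne_zero β)) (X_sub_C_ne_zero 1), natDegree_pow,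
        natDegree_X_sub_C, natDegree_X_sub_C]; ring)
    (by
      have : ∀ P : k[X], P.coeff 1 = (derivative P).eval 0 := by
        intro P; rw [← coeff_zero_eq_eval_zero, coeff_derivative]; simp
      rw [this]
      simp only [derivative_mul, derivative_X_sub_C_pow, derivative_sub, derivative_X,
        derivative_C, eval_add, eval_mul, eval_pow, eval_sub, eval_X, eval_C, Nat.add_sub_cancel,
        eval_one, eval_zero, eval_natCast, map_natCast]
      rw [hβ]; push_cast; ring)
  set l1 := M0.eval β / β with hl1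
  set l2 := M0.eval 1 with hl2
  have hl : l1 - l2 ≠ 0 := by
    intro h
    have h12 : l1 = l2 := sub_eq_zero.mp h
    obtain ⟨g, hg, hg'⟩ := mult_lemma (P := M0 - C l1 * X) (D := X - C 1) hβ0 (n := d + 2)
      (by omega) (hlt _ le_rfl) (by simp [hl1, hβ0])
      (by rw [show d + 2 - 1 = d + 1 from rfl, ← hid]; simp; ring)
      (by simpa using hβ1)
    have hg0 : g ≠ 0 := by rintro rfl; simp at hg'
    have hdeg : (M0 - C l1 * X).natDegree ≤ d + 2 := by
      refine (natDegree_sub_le _ _).trans (max_le hM0.le ?_)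
      exact (natDegree_C_mul_le _ _).trans (by simp)
    rw [hg, natDegree_mul (pow_ne_zero _ (X_sub_C_ne_zero β)) hg0, natDegree_pow,
      natDegree_X_sub_C] at hdeg
    have hgc := eq_C_of_natDegree_eq_zero (p := g) (by omega)
    have h1 := congrArg (eval 1) hg
    rw [hgc] at h1 hg'
    simp only [eval_sub, eval_mul, eval_C, eval_X, eval_pow, mul_one, ← hl2, h12, sub_self] at h1 hg'
    refine mul_ne_zero (pow_ne_zero _ ?_) hg' h1.symm
    intro h2; apply hβ1; linear_combination -h2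
  have hfr : β ^ p - 1 ≠ 0 := by
    have := sub_pow_char (p := p) β 1
    rw [one_pow] at this
    rw [← this]; exact pow_ne_zero _ hβ1
  set c : k := -(β ^ p - 1) / (l1 - l2) with hc
  have hc0 : c ≠ 0 := div_ne_zero (neg_ne_zero.mpr hfr) hl
  set A : k := -β ^ p - c * l1 with hA
  set M : k[X] := C c * M0 + C A * X with hM
  have hMD : X * derivative M - M = C c * (X - C β) ^ (d + 1) * (X - C 1) := by
    rw [mul_assoc, ← hid, hM]; simp; ring
  have hr1 : (X ^ (p + 1) + M).eval β = 0 := by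
    simp only [hM, eval_add, eval_pow, eval_X, eval_mul, eval_C, hA, hl1]
    field_simp; ring
  have hr2 : (X ^ (p + 1) + M).eval 1 = 0 := by
    simp only [hM, eval_add, eval_pow, eval_X, eval_mul, eval_C, hA, ← hl2, hc]
    field_simp; ring
  obtain ⟨g1, hg1, hg1'⟩ := mult_lemma (P := X ^ (p + 1) + M) (D := C c * (X - C 1)) hβ0
    (n := d + 2) (by omega) (hlt _ le_rfl) hr1
    (by rw [XD_add, hMD, show d + 2 - 1 = d + 1 from rfl]; ring)
    (by simpa using ⟨hc0, hβ1⟩)
  obtain ⟨g2, hg2, hg2'⟩ := mult_lemma (P := X ^ (p + 1) + M) (D := C c * (X - C β) ^ (d + 1))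
    (one_ne_zero) (n := 2) (by omega) (hlt _ (by omega)) hr2
    (by rw [XD_add, hMD]; ring)
    (by
      simp only [eval_mul, eval_C, eval_pow, eval_sub, eval_X]
      refine mul_ne_zero hc0 (pow_ne_zero _ ?_)
      intro h2; apply hβ1; linear_combination -h2)
  refine ⟨⟨M, β, 1, c, g1, g2, ?_, hβ0, one_ne_zero, hc0, hMD, hg1, hg1', hg2, hg2'⟩⟩
  rw [hM, natDegree_add_eq_left_of_natDegree_lt, natDegree_C_mul hc0, hM0]
  rw [natDegree_C_mul hc0, hM0]
  exact lt_of_le_of_lt ((natDegree_C_mul_le _ _).trans (by simp : X.natDegree ≤ 1)) (by omega)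

theorem exists_a {p : ℕ} (hp : p.Prime) (h5 : 5 ≤ p) (h7 : p ≠ 7) :
    ∃ a, 3 ≤ a ∧ a + 2 ≤ p ∧ Nat.Coprime (a * (a - 2)) (p - 1) := by
  have hodd : p % 2 = 1 := hp.eq_two_or_odd.resolve_left (by omega)
  have crit : ∀ a, (∀ l, l.Prime → l ∣ p - 1 → ¬ l ∣ a ∧ ¬ l ∣ a - 2) →
      Nat.Coprime (a * (a - 2)) (p - 1) := by
    intro a h
    by_contra hc
    obtain ⟨l, hl, h1, h2⟩ := Nat.Prime.not_coprime_iff_dvd.mp hc
    rcases (Nat.Prime.dvd_mul hl).mp h1 with h3 | h3
    · exact (h l hl h2).1 h3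
    · exact (h l hl h2).2 h3
  have one : ∀ l b : ℕ, l.Prime → 1 ≤ b → l ∣ b → ¬ l ∣ b + 1 ∧ ¬ l ∣ b - 1 := by
    intro l b hl hb h
    constructor
    · intro h1
      exact hl.one_lt.ne' (Nat.dvd_one.mp ((Nat.dvd_add_right h).mp h1))
    · intro h1
      have := Nat.dvd_sub h h1
      rw [show b - (b - 1) = 1 by omega] at this
      exact hl.one_lt.ne' (Nat.dvd_one.mp this)
  have sq : ∀ q s, q.Prime → p - 1 = q * (q * s) →
      ∃ a, 3 ≤ a ∧ a + 2 ≤ p ∧ Nat.Coprime (a * (a - 2)) (p - 1) := by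
    intro q s hq e
    have hs : 0 < s := Nat.pos_of_ne_zero (by rintro rfl; simp at e; omega)
    have h2 := hq.two_le
    have h3 : 2 ≤ q * s := by nlinarith
    refine ⟨q * s + 1, by omega, ?_, crit _ fun l hl hd => ?_⟩
    · have : 2 * (q * s) ≤ q * (q * s) := Nat.mul_le_mul_right _ h2
      omega
    · have : l ∣ q * s := by
        rw [e] at hd
        rcases (Nat.Prime.dvd_mul hl).mp hd with h | h
        · exact h.mul_right s
        · exact h
      exact one l (q * s) hl (by omega) this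
  by_cases h3 : 3 ∣ p - 1
  · obtain ⟨s, hs⟩ : ∃ s, p - 1 = 6 * s := ⟨(p - 1) / 6, by omega⟩
    by_cases hs2 : 2 ∣ s
    · obtain ⟨u, rfl⟩ := hs2
      exact sq 2 (3 * u) Nat.prime_two (by omega)
    by_cases hs3 : 3 ∣ s
    · obtain ⟨u, rfl⟩ := hs3
      exact sq 3 (2 * u) Nat.prime_three (by omega)
    have hs5 : 5 ≤ s := by omega
    have key : ∀ j, 1 ≤ j → j ≤ 5 → (j * s) % 6 = 2 → (∀ l, l.Prime → l ∣ j → l ∣ s → False) →
        ∃ a, 3 ≤ a ∧ a + 2 ≤ p ∧ Nat.Coprime (a * (a - 2)) (p - 1) := by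
      intro j hj1 hj5 hm _
      have h1 : s ≤ j * s := Nat.le_mul_of_pos_left s hj1
      have h2 : j * s ≤ 5 * s := Nat.mul_le_mul_right s hj5
      refine ⟨j * s - 1, by omega, by omega, crit _ fun l hl hd => ?_⟩
      rw [hs] at hd
      rcases (Nat.Prime.dvd_mul hl).mp hd with h | h
      · have h6 : l ∣ j * s - 2 := h.trans (by omega)
        have := one l (j * s - 2) hl (by omega) h6
        rw [show j * s - 2 + 1 = j * s - 1 by omega,
          show j * s - 2 - 1 = j * s - 1 - 2 by omega] at this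
        exact this
      · have h6 : l ∣ j * s := h.mul_left j
        refine ⟨(one l (j * s) hl (by omega) h6).2, fun h7 => ?_⟩
        have := Nat.dvd_sub h6 h7
        rw [show j * s - (j * s - 1 - 2) = 3 by omega] at this
        have h8 := (Nat.prime_dvd_prime_iff_eq hl Nat.prime_three).mp this
        rw [h8] at h
        exact hs3 h
    have nd : ∀ j, (j = 2 ∨ j = 4) → ∀ l, l.Prime → l ∣ j → l ∣ s → False := by
      intro j hj l hl h1 h2
      have : l ∣ 2 := by
        rcases hj with rfl | rfl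
        · exact h1
        · exact (Nat.Prime.dvd_mul hl (m := 2) (n := 2)).mp h1 |>.elim id id
      rw [(Nat.prime_dvd_prime_iff_eq hl Nat.prime_two).mp this] at h2
      exact hs2 h2
    rcases (by omega : s % 6 = 1 ∨ s % 6 = 5) with h | h
    · exact key 2 (by omega) (by omega) (by omega) (nd 2 (Or.inl rfl))
    · exact key 4 (by omega) (by omega) (by omega) (nd 4 (Or.inr rfl))
  · refine ⟨p - 2, by omega, by omega, crit _ fun l hl hd => ⟨?_, fun h7 => ?_⟩⟩
    · have := (one l (p - 1) hl (by omega) hd).2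
      rwa [show p - 1 - 1 = p - 2 by omega] at this
    · have := Nat.dvd_sub hd h7
      rw [show p - 1 - (p - 2 - 2) = 3 by omega] at this
      have h8 := (Nat.prime_dvd_prime_iff_eq hl Nat.prime_three).mp this
      rw [h8] at hd
      exact h3 hd

end Pool.Agent.H19Z.IC
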