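import Pool.Agent.H19Z.IC.RatF
import Pool.Agent.H19Z.IC.Data

/-!
Local analysis of the roots of `N(z) = x z`.
-/

set_option autoImplicit false

namespace Pool.Agent.H19Z.IC

open Polynomial

variable {k L Γ : Type*} [Field k] [Field L] [Algebra k L] [LinearOrderedCommGroupWithZero Γ]
  {p a : ℕ} (D : Data k p a)

/-- the root equation -/
def Data.Rt (x z : L) : Prop := aeval z (X ^ (p + 1) + D.M) = x * z

theorem Data.M0 : D.M.eval 0 ≠ 0 := by
  have := congrArg (eval 0) D.hD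
  simp only [eval_sub, eval_mul, eval_X, zero_mul, zero_sub, eval_C, eval_pow] at this
  intro h
  rw [h, neg_zero] at this
  exact mul_ne_zero (mul_ne_zero D.cne (pow_ne_zero _ (neg_ne_zero.mpr D.b1ne)))
    (neg_ne_zero.mpr D.b2ne) this.symm

theorem Data.N0 : (X ^ (p + 1) + D.M).eval 0 ≠ 0 := by simpa using D.M0

theorem Data.Mne : D.M ≠ 0 := by
  intro h; apply D.M0; rw [h]; simp

variable {D}

theorem Data.Rt.ne_zero {x z : L} (h : D.Rt x z) : z ≠ 0 := by
  rintro rfl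
  apply D.N0
  unfold Data.Rt at h
  rw [mul_zero, ← map_zero (algebraMap k L), aeval_algebraMap_apply, coe_aeval_eq_eval] at h
  simpa using h

theorem val_M_large {w : Valuation L Γ} (hw : Triv k w) {z : L} (hz : 1 < w z) :
    w (aeval z D.M) ≤ w z ^ a := by
  have hz0 : z ≠ 0 := by rintro rfl; simp at hz
  rw [aeval_reverse hz0, D.deg, map_mul, map_pow]
  exact mul_le_of_le_one_right' (aeval_le hw ((w.one_lt_val_iff hz0).mp hz).le _)

theorem Data.Rt.large {w : Valuation L Γ} (hw : Triv k w) (hap : a ≤ p) {x z : L} (h : D.Rt x z)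
    (hz : 1 < w z) : w z ^ p = w x := by
  have h1 : w (aeval z D.M) < w (z ^ (p + 1)) := by
    rw [map_pow]
    exact (val_M_large hw hz).trans_lt (pow_lt_pow_right₀ hz (by omega))
  have h2 := congrArg w h
  rw [map_add, map_pow, aeval_X, w.map_add_eq_of_lt_left h1, map_pow, map_mul, pow_succ] at h2
  exact mul_right_cancel₀ (ne_of_gt (lt_trans zero_lt_one hz)) h2

theorem Data.Rt.val_one {w : Valuation L Γ} (hw : Triv k w) (hap : a ≤ p) (hp : 0 < p) {x z : L}
    (hx : w x ≤ 1) (h : D.Rt x z) : w z = 1 := by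
  rcases lt_trichotomy (w z) 1 with h1 | h1 | h1
  · exfalso
    have h2 := aeval_eq_one hw (c := 0) (by simpa using h1) D.N0
    rw [h, map_mul, mul_comm] at h2
    exact (mul_lt_one_of_lt_of_le h1 hx).ne h2
  · exact h1
  · exfalso
    have := h.large hw hap h1
    exact absurd (this ▸ hx) (not_le.mpr (one_lt_pow₀ h1 hp.ne'))

theorem Data.Rt.deriv [CharP k p] {x z : L} (h : D.Rt x z) :
    z * (aeval z (derivative (X ^ (p + 1) + D.M)) - x) =
      algebraMap k L D.c * (z - algebraMap k L D.b1) ^ (a - 1) * (z - algebraMap k L D.b2) := by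
  have := congrArg (aeval z) ((XD_add (p := p) D.M).trans D.hD)
  rw [map_sub, map_mul, aeval_X, h] at this
  simp only [map_mul, map_pow, map_sub, aeval_C, aeval_X] at this
  rw [← this]; ring

theorem Data.Rt.sepU [CharP k p] {w : Valuation L Γ} (hw : Triv k w) {x z z' : L}
    (h : D.Rt x z) (h' : D.Rt x z') (hz : w z = 1) (h1 : 1 ≤ w (z - algebraMap k L D.b1))
    (h2 : 1 ≤ w (z - algebraMap k L D.b2)) (hd : w (z' - z) < 1) : z' = z := by
  by_contra hne
  have hd0 : 0 < w (z' - z) := w.pos_iff.mpr (sub_ne_zero.mpr hne)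
  have hz' : w z' ≤ 1 := by
    have e : z' = (z' - z) + z := by ring
    rw [e]; exact w.map_add_le hd.le hz.le
  have h3 := congrArg w h.deriv
  rw [map_mul, hz, one_mul, map_mul, map_mul, map_pow, hw _ D.cne,
    le_antisymm (w.map_sub_le hz.le (hw.le _)) h1,
    le_antisymm (w.map_sub_le hz.le (hw.le _)) h2] at h3
  have h4 := aeval_taylor hw hz.le hz' (X ^ (p + 1) + D.M)
  rw [h, h', show x * z' - x * z - aeval z (derivative (X ^ (p + 1) + D.M)) * (z' - z) =
    -((aeval z (derivative (X ^ (p + 1) + D.M)) - x) * (z' - z)) by ring, w.map_neg, map_mul,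
    h3] at h4
  simp only [one_pow, mul_one, one_mul] at h4
  rw [pow_two] at h4
  exact absurd h4 (not_le.mpr (mul_lt_of_lt_one_left hd0 hd))

theorem Data.Rt.sepN {w : Valuation L Γ} (hw : Triv k w) {β : k} {ν : ℕ} {g : k[X]}
    (hβ : β ≠ 0) (hν : (ν : k) ≠ 0) (hN : X ^ (p + 1) + D.M = (X - C β) ^ ν * g)
    (hg : g.eval β ≠ 0) {x z z' : L} (h : D.Rt x z) (h' : D.Rt x z')
    (h1 : w (z - algebraMap k L β) < 1) (hd : w (z' - z) < w (z - algebraMap k L β)) :
    z' = z := by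
  by_contra hne
  set u := z - algebraMap k L β with hu
  have hu0 : u ≠ 0 := by intro h0; rw [h0] at hd; simp at hd
  have hwu : 0 < w u := w.pos_iff.mpr hu0
  have h1' : w (z' - algebraMap k L β) < 1 := by
    have e : z' - algebraMap k L β = (z' - z) + u := by rw [hu]; ring
    rw [e]; exact w.map_add_lt (hd.trans h1) h1
  set s := (z' - algebraMap k L β) / u with hs
  have hs1 : s - 1 = (z' - z) / u := by rw [hs]; field_simp; rw [hu]; ring
  have hs2 : w (s - 1) < 1 := by rw [hs1, map_div₀]; exact (div_lt_one₀ hwu).mpr hd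
  have hs3 : w (z' - z) < w (s - 1) := by
    have hd0 : 0 < w (z' - z) := w.pos_iff.mpr (sub_ne_zero.mpr hne)
    rw [hs1, map_div₀, lt_div_iff₀ hwu]
    exact mul_lt_of_lt_one_right hd0 h1
  unfold Data.Rt at h h'
  rw [hN] at h h'
  simp only [map_mul, map_pow, map_sub, aeval_X, aeval_C] at h h'
  have e1 : z' - algebraMap k L β = s * u := by rw [hs]; field_simp
  rw [e1] at h'
  rw [← hu] at h
  have e2 : (s ^ ν - 1) * aeval z' g * z = aeval z g * (z' - z) - (aeval z' g - aeval z g) * z := by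
    apply mul_left_cancel₀ (pow_ne_zero ν hu0)
    rw [mul_pow] at h'
    linear_combination z * h' - z' * h
  have hz := eq_one_of_res hw hβ h1
  have hz' := eq_one_of_res hw hβ h1'
  have h5 := congrArg w e2
  rw [map_mul, map_mul, hz, aeval_eq_one hw h1' hg, pow_sub_one_val hw hs2 hν, mul_one,
    mul_one] at h5
  have h6 : w (aeval z g * (z' - z) - (aeval z' g - aeval z g) * z) ≤ w (z' - z) := by
    refine w.map_sub_le ?_ ?_
    · rw [map_mul, aeval_eq_one hw h1 hg, one_mul]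
    · rw [map_mul, hz, mul_one]; exact aeval_sub_le hw hz.le hz'.le g
  exact absurd (h5 ▸ h6) (not_le.mpr hs3)

theorem Data.Rt.near {w : Valuation L Γ} (hw : Triv k w) {β : k} {ν : ℕ} {g : k[X]}
    (hN : X ^ (p + 1) + D.M = (X - C β) ^ ν * g)
    (hg : g.eval β ≠ 0) {s z : L} (hs : s ≠ 0) (h : D.Rt (s ^ ν) z)
    (h1 : w (z - algebraMap k L β) < 1) :
    w (((z - algebraMap k L β) / s) ^ ν - algebraMap k L (β * (g.eval β)⁻¹)) < 1 := by
  unfold Data.Rt at h
  rw [hN] at h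
  simp only [map_mul, map_pow, map_sub, aeval_X, aeval_C] at h
  have hg1 := aeval_eq_one hw h1 hg
  have hg0 : aeval z g ≠ 0 := by intro h0; rw [h0] at hg1; simp at hg1
  have e : ((z - algebraMap k L β) / s) ^ ν = z * (aeval z g)⁻¹ := by
    rw [div_pow]; field_simp; rw [h]; ring
  rw [e]
  exact res_mul hw h1 (res_inv hw hg (aeval_res hw h1 g))

theorem Data.Rt.near_val {w : Valuation L Γ} (hw : Triv k w) {β : k} {ν : ℕ} {g : k[X]}
    (hβ : β ≠ 0) (hν : ν ≠ 0) (hN : X ^ (p + 1) + D.M = (X - C β) ^ ν * g)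
    (hg : g.eval β ≠ 0) {s z : L} (hs : s ≠ 0) (h : D.Rt (s ^ ν) z)
    (h1 : w (z - algebraMap k L β) < 1) : w ((z - algebraMap k L β) / s) = 1 := by
  have h2 := eq_one_of_res hw (mul_ne_zero hβ (inv_ne_zero hg)) (h.near hw hN hg hs h1)
  rw [map_pow] at h2
  exact (pow_eq_one_iff_left hν).mp h2

/-- an automorphism acting trivially on residues and fixing `s` fixes roots near `β` -/
theorem Data.Rt.fix_near {w : Valuation L Γ} (hw : Triv k w) {β : k} {ν : ℕ} {g : k[X]}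
    (hβ : β ≠ 0) (hν : (ν : k) ≠ 0) (hN : X ^ (p + 1) + D.M = (X - C β) ^ ν * g)
    (hg : g.eval β ≠ 0) {s z : L} (hs : s ≠ 0) (h : D.Rt (s ^ ν) z)
    (h1 : w (z - algebraMap k L β) < 1) (Ψ : L →+* L)
    (hΨ : ∀ y, w y ≤ 1 → w (Ψ y - y) < 1) (hk : Ψ (algebraMap k L β) = algebraMap k L β)
    (hΨs : Ψ s = s) (hr : D.Rt (s ^ ν) (Ψ z)) : Ψ z = z := by
  have hν0 : ν ≠ 0 := by rintro rfl; simp at hν
  have h2 := h.near_val hw hβ hν0 hN hg hs h1
  refine h.sepN hw hβ hν hN hg hr h1 ?_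
  have h3 := hΨ _ h2.le
  rw [map_div₀, map_sub Ψ, hk, hΨs, ← sub_div, sub_sub_sub_cancel_right, map_div₀] at h3
  have hws : 0 < w s := w.pos_iff.mpr hs
  rw [map_div₀, div_eq_one_iff_eq hws.ne'] at h2
  rw [h2]
  exact (div_lt_one₀ hws).mp h3

theorem Data.Rt.small_lt {w : Valuation L Γ} (hw : Triv k w) {x z : L} (hx : 1 < w x)
    (h : D.Rt x z) (hz : w z ≤ 1) : w z < 1 := by
  refine lt_of_le_of_ne hz fun h1 => ?_
  have h2 := aeval_le hw hz (X ^ (p + 1) + D.M)
  rw [h, map_mul, h1, mul_one] at h2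
  exact absurd h2 (not_le.mpr hx)

theorem Data.Rt.small_unique {w : Valuation L Γ} (hw : Triv k w) {x z z' : L} (hx : 1 < w x)
    (h : D.Rt x z) (h' : D.Rt x z') (hz : w z ≤ 1) (hz' : w z' ≤ 1) : z' = z := by
  by_contra hne
  have hd0 : 0 < w (z' - z) := w.pos_iff.mpr (sub_ne_zero.mpr hne)
  have h2 := aeval_sub_le hw hz hz' (X ^ (p + 1) + D.M)
  rw [h, h', ← mul_sub, map_mul] at h2
  exact absurd h2 (not_le.mpr (lt_mul_of_one_lt_left hd0 hx))

theorem Data.Rt.eq_rev (ha : 2 ≤ a) {x z : L} (h : D.Rt x z) :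
    x = z ^ p + z ^ (a - 1) * aeval z⁻¹ D.M.reverse := by
  have hz0 := h.ne_zero
  unfold Data.Rt at h
  rw [map_add, map_pow, aeval_X, aeval_reverse hz0, D.deg] at h
  obtain ⟨d, rfl⟩ : ∃ d, a = d + 1 := ⟨a - 1, by omega⟩
  apply mul_right_cancel₀ hz0
  rw [← h, Nat.add_sub_cancel]; ring

theorem Data.Rt.large_close [hp : Fact p.Prime] [CharP k p] {w : Valuation L Γ} (hw : Triv k w)
    (ha : 2 ≤ a) (hap : a ≤ p) {x z z' : L} (h : D.Rt x z) (h' : D.Rt x z') (hz : 1 < w z)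
    (hz' : 1 < w z') : w z' = w z ∧ w (z' - z) < w z := by
  have : CharP L p := charP_of_injective_algebraMap (algebraMap k L).injective p
  have e1 : w z' = w z := by
    have := (h'.large hw hap hz').trans (h.large hw hap hz).symm
    exact (pow_left_inj₀ zero_le zero_le hp.out.ne_zero).mp this
  refine ⟨e1, ?_⟩
  have e2 : (z' - z) ^ p = z ^ (a - 1) * aeval z⁻¹ D.M.reverse -
      z' ^ (a - 1) * aeval z'⁻¹ D.M.reverse := by
    rw [sub_pow_char]
    linear_combination h.eq_rev ha - h'.eq_rev ha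
  have h3 : w (z' - z) ^ p ≤ w z ^ (a - 1) := by
    rw [← map_pow, e2]
    refine w.map_sub_le ?_ ?_
    · rw [map_mul, map_pow]
      exact mul_le_of_le_one_right' (aeval_le hw ((w.one_lt_val_iff h.ne_zero).mp hz).le _)
    · rw [map_mul, map_pow, e1]
      exact mul_le_of_le_one_right' (aeval_le hw ((w.one_lt_val_iff h'.ne_zero).mp hz').le _)
  exact lt_of_pow_lt_pow_left₀ p zero_le (h3.trans_lt (pow_lt_pow_right₀ hz (by omega)))

theorem Data.Rt.large_diff [hp : Fact p.Prime] [CharP k p] {w : Valuation L Γ} (hw : Triv k w)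
    (ha : 2 ≤ a) (hap : a ≤ p) {x z z' z0 : L} (h : D.Rt x z) (h' : D.Rt x z') (h0 : D.Rt x z0)
    (hz : 1 < w z) (hz' : 1 < w z') (hz0 : 1 < w z0) (hne : z' ≠ z) :
    w ((z' - z) ^ (p - 1) / z0 ^ (a - 2) -
      algebraMap k L (-(((a - 1 : ℕ) : k) * D.M.leadingCoeff))) < 1 := by
  have : CharP L p := charP_of_injective_algebraMap (algebraMap k L).injective p
  obtain ⟨e1, e2⟩ := h.large_close hw ha hap h' hz hz'
  obtain ⟨e3, e4⟩ := h0.large_close hw ha hap h hz0 hz
  have hzn := h.ne_zero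
  have hzn' := h'.ne_zero
  have hzn0 := h0.ne_zero
  have hwz : 0 < w z := lt_trans zero_lt_one hz
  have hd : z' - z ≠ 0 := sub_ne_zero.mpr hne
  set R := D.M.reverse with hR
  have e5 : (z' - z) ^ p = z ^ (a - 1) * aeval z⁻¹ R - z' ^ (a - 1) * aeval z'⁻¹ R := by
    rw [sub_pow_char]
    linear_combination h.eq_rev ha - h'.eq_rev ha
  obtain ⟨d, rfl⟩ : ∃ d, a = d + 2 := ⟨a - 2, by omega⟩
  obtain ⟨q, hq⟩ : ∃ q, p = q + 1 := ⟨p - 1, by have := hp.out.pos; omega⟩
  set s := z' / z with hs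
  have hs1 : s - 1 = (z' - z) / z := by rw [hs]; field_simp
  have hs0 : s - 1 ≠ 0 := by rw [hs1]; exact div_ne_zero hd hzn
  have hs2 : w (s - 1) < 1 := by rw [hs1, map_div₀]; exact (div_lt_one₀ hwz).mpr e2
  have hws : 0 < w (s - 1) := w.pos_iff.mpr hs0
  have e6 : (z' - z) ^ (p - 1) / z0 ^ (d + 2 - 2) = (z / z0) ^ d *
      (-((s ^ (d + 1) - 1) / (s - 1) * aeval z'⁻¹ R) - (aeval z'⁻¹ R - aeval z⁻¹ R) / (s - 1)) := by
    have e7 : z' = s * z := by rw [hs]; field_simp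
    have e8 : (z' - z) ^ (p - 1) = (z' - z) ^ p / (z' - z) := by
      rw [eq_div_iff hd, ← pow_succ]; congr 1; omega
    rw [e8, e5, show d + 2 - 1 = d + 1 from rfl, Nat.add_sub_cancel]
    generalize aeval z⁻¹ R = A
    generalize aeval z'⁻¹ R = B
    have e9 : z' - z = (s - 1) * z := by rw [e7]; ring
    rw [e9, e7, div_pow]
    field_simp
    ring
  have r1 : w (z / z0 - algebraMap k L 1) < 1 := by
    rw [map_one, div_sub_one hzn0, map_div₀]
    exact (div_lt_one₀ (lt_trans zero_lt_one hz0)).mpr e4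
  have r2 : w ((s ^ (d + 1) - 1) / (s - 1) - algebraMap k L ((d + 1 : ℕ) : k)) < 1 := by
    have h1 := pow_taylor w (y := 1) (d := s - 1) (by simp) hs2.le (d + 1)
    have e : (s ^ (d + 1) - 1) / (s - 1) - algebraMap k L ((d + 1 : ℕ) : k) =
        ((1 + (s - 1)) ^ (d + 1) - 1 ^ (d + 1) - ((d + 1 : ℕ) : L) * 1 ^ (d + 1 - 1) * (s - 1)) /
          (s - 1) := by
      rw [map_natCast]; field_simp; ring
    rw [e, map_div₀, div_lt_one₀ hws]
    refine h1.trans_lt ?_
    rw [pow_two]; exact mul_lt_of_lt_one_left hws hs2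
  have hi : w z⁻¹ < 1 := (w.one_lt_val_iff hzn).mp hz
  have hi' : w z'⁻¹ < 1 := (w.one_lt_val_iff hzn').mp hz'
  have r3 : w (aeval z'⁻¹ R - algebraMap k L D.M.leadingCoeff) < 1 := by
    have := aeval_res hw (y := z'⁻¹) (c := 0) (by simpa using hi') R
    rwa [← coeff_zero_eq_eval_zero, hR, coeff_zero_reverse] at this
  have r4 : w ((aeval z'⁻¹ R - aeval z⁻¹ R) / (s - 1)) < 1 := by
    rw [map_div₀, div_lt_one₀ hws]
    refine (aeval_sub_le hw hi.le hi'.le R).trans_lt ?_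
    have e : z'⁻¹ - z⁻¹ = -(z'⁻¹ * (s - 1)) := by rw [hs]; field_simp; ring
    rw [e, w.map_neg, map_mul]
    exact mul_lt_of_lt_one_left hws hi'
  have r5 : w ((-((s ^ (d + 1) - 1) / (s - 1) * aeval z'⁻¹ R) -
      (aeval z'⁻¹ R - aeval z⁻¹ R) / (s - 1)) -
      algebraMap k L (-(((d + 1 : ℕ) : k) * D.M.leadingCoeff))) < 1 := by
    have e : ∀ A B : L, ∀ c : k, (-A - B) - algebraMap k L (-c) = -(A - algebraMap k L c) - B := by
      intro A B c; rw [map_neg]; ring
    rw [e]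
    refine w.map_sub_lt ?_ r4
    rw [w.map_neg]
    exact res_mul hw r2 r3
  have r6 := res_mul hw (res_pow hw r1 d) r5
  rw [one_pow, one_mul] at r6
  rw [e6]
  exact r6

end Pool.Agent.H19Z.IC
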