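import Mathlib

/-!
Group theory: affine permutations of the projective line fixing the point at infinity.
-/

set_option autoImplicit false

namespace Pool.Agent.H19Z.IC

open Equiv Equiv.Perm

variable {p : ℕ} [hp : Fact p.Prime]

/-- the affine map on `Option (ZMod p)` -/
def aff (α β : ZMod p) : Option (ZMod p) → Option (ZMod p) := Option.map (fun u => α * u + β)

@[simp] theorem aff_none (α β : ZMod p) : aff α β none = none := rfl
@[simp] theorem aff_some (α β u : ZMod p) : aff α β (some u) = some (α * u + β) := rfl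

theorem aff_aff (α β α' β' : ZMod p) (o : Option (ZMod p)) :
    aff α β (aff α' β' o) = aff (α * α') (α * β' + β) o := by
  cases o with
  | none => rfl
  | some u => simp only [aff_some]; congr 1; ring

/-- the group of affine maps whose multiplier is an `m`-th root of unity -/
def Aff (p : ℕ) [Fact p.Prime] (m : ℕ) (hm : 0 < m) : Subgroup (Perm (Option (ZMod p))) where
  carrier := {π | ∃ α β : ZMod p, α ^ m = 1 ∧ ∀ o, π o = aff α β o}
  one_mem' := ⟨1, 0, one_pow _, fun o => by cases o <;> simp⟩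
  mul_mem' := by
    rintro π π' ⟨α, β, h1, h2⟩ ⟨α', β', h1', h2'⟩
    refine ⟨α * α', α * β' + β, by rw [mul_pow, h1, h1', one_mul], fun o => ?_⟩
    rw [Perm.mul_apply, h2', h2, aff_aff]
  inv_mem' := by
    rintro π ⟨α, β, h1, h2⟩
    have h0 : α ≠ 0 := by rintro rfl; rw [zero_pow hm.ne'] at h1; exact zero_ne_one h1
    refine ⟨α⁻¹, -α⁻¹ * β, by rw [inv_pow, h1, inv_one], fun o => ?_⟩
    rw [Perm.inv_eq_iff_eq, h2, aff_aff]
    cases o with
    | none => rfl
    | some u => simp only [aff_some]; congr 1; field_simp; ring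

theorem mem_Aff {m : ℕ} {hm : 0 < m} {π : Perm (Option (ZMod p))} :
    π ∈ Aff p m hm ↔ ∃ α β : ZMod p, α ^ m = 1 ∧ ∀ o, π o = aff α β o := Iff.rfl

theorem card_Aff_le (m : ℕ) (hm : 0 < m) : Nat.card (Aff p m hm) ≤ p * m := by
  classical
  have h : ∀ π : Aff p m hm, ∃ x : ZMod p × (Polynomial.nthRoots m (1 : ZMod p)).toFinset,
      ∀ o, (π : Perm _) o = aff (x.2 : ZMod p) x.1 o := by
    rintro ⟨π, α, β, h1, h2⟩
    exact ⟨(β, ⟨α, by simpa [Polynomial.mem_nthRoots hm] using h1⟩), h2⟩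
  choose f hf using h
  have hinj : Function.Injective f := by
    intro π π' e
    ext1; ext1 o
    rw [hf, hf, e]
  refine (Nat.card_le_card_of_injective f hinj).trans ?_
  rw [Nat.card_prod, Nat.card_zmod]
  refine Nat.mul_le_mul_left p ?_
  rw [Nat.card_eq_fintype_card, Fintype.card_coe]
  exact (Multiset.toFinset_card_le _).trans (Polynomial.card_nthRoots m 1)

/-- translations -/
def tr (β : ZMod p) : Perm (Option (ZMod p)) := Equiv.optionCongr (Equiv.addRight β)

theorem tr_apply (β : ZMod p) (o : Option (ZMod p)) : tr β o = aff 1 β o := by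
  cases o <;> simp [tr]

theorem tr_mem (m : ℕ) (hm : 0 < m) (β : ZMod p) : tr β ∈ Aff p m hm :=
  ⟨1, β, one_pow _, tr_apply β⟩

theorem tr_pow (β : ZMod p) (n : ℕ) : tr β ^ n = tr ((n : ZMod p) * β) := by
  induction n with
  | zero => ext1 o; rw [tr_apply]; cases o <;> simp
  | succ n ih =>
    ext1 o
    rw [pow_succ, ih, Perm.mul_apply, tr_apply, tr_apply, tr_apply, aff_aff]
    congr 1 <;> push_cast <;> ring

theorem sign_tr (h5 : 5 ≤ p) (β : ZMod p) : sign (tr β) = 1 := by
  have h1 : tr β ^ p = 1 := by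
    rw [tr_pow]; ext1 o; rw [tr_apply]; cases o <;> simp
  have h2 := congrArg sign h1
  rw [map_pow, map_one] at h2
  have hodd : Odd p := hp.out.odd_of_ne_two (by omega)
  rcases Int.units_eq_one_or (sign (tr β)) with h | h
  · exact h
  · rw [h, hodd.neg_one_pow] at h2; exact absurd h2 (by decide)

theorem pow_half_of_sign (h5 : 5 ≤ p) {π : Perm (Option (ZMod p))} {α β : ZMod p} (hα : α ≠ 0)
    (h : ∀ o, π o = aff α β o) (hs : sign π = 1) : α ^ ((p - 1) / 2) = 1 := by
  classical
  obtain ⟨g, hg⟩ := IsCyclic.exists_monoid_generator (α := (ZMod p)ˣ)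
  have hord : orderOf g = p - 1 := by
    rw [orderOf_eq_card_of_forall_mem_powers hg, Nat.card_eq_fintype_card, ZMod.card_units]
  set μ : Perm (ZMod p) := Equiv.mulLeft₀ (g : ZMod p) g.ne_zero with hμ
  have hμpow : ∀ (i : ℕ) u, (μ ^ i) u = (g : ZMod p) ^ i * u := by
    intro i
    induction i with
    | zero => simp
    | succ i ih => intro u; rw [pow_succ', Perm.mul_apply, ih]; simp [hμ]; ring
  have hg1 : (g : ZMod p) ≠ 1 := by
    intro h1
    have : g = 1 := Units.ext h1
    rw [this, orderOf_one] at hord; omega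
  have hmove : ∀ u, μ u ≠ u ↔ u ≠ 0 := by
    intro u
    simp only [hμ, mulLeft₀_apply, ne_eq]
    constructor
    · rintro h1 rfl; simp at h1
    · intro h1 h2
      exact hg1 (mul_right_cancel₀ h1 (by rw [h2, one_mul]))
  have hcyc : μ.IsCycle := by
    refine ⟨1, (hmove 1).mpr one_ne_zero, fun y hy => ?_⟩
    obtain ⟨i, hi⟩ := hg (Units.mk0 y ((hmove y).mp hy))
    refine ⟨i, ?_⟩
    rw [zpow_natCast, hμpow, mul_one]
    simpa using congrArg Units.val hi
  have hsupp : μ.support.card = p - 1 := by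
    have : μ.support = Finset.univ.erase 0 := by
      ext u; simp [mem_support, hmove]
    rw [this, Finset.card_erase_of_mem (Finset.mem_univ _), Finset.card_univ, ZMod.card]
  have hodd : p % 2 = 1 := hp.out.eq_two_or_odd.resolve_left (by omega)
  have hsμ : sign μ = -1 := by
    rw [hcyc.sign, hsupp, Even.neg_one_pow (Nat.even_iff.mpr (by omega))]
  obtain ⟨i, hi⟩ := hg (Units.mk0 α hα)
  have hi' : (g : ZMod p) ^ i = α := by simpa using congrArg Units.val hi
  have hπ : π = tr β * Equiv.optionCongr (μ ^ i) := by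
    ext1 o
    rw [h, Perm.mul_apply, tr_apply]
    cases o with
    | none => rfl
    | some u => simp [hμpow, hi']
  rw [hπ, map_mul, sign_tr h5, one_mul, optionCongr_sign, map_pow, hsμ] at hs
  have hev : Even i := by
    by_contra hne
    rw [(Nat.not_even_iff_odd.mp hne).neg_one_pow] at hs
    exact absurd hs (by decide)
  obtain ⟨j, rfl⟩ := hev
  rw [← hi', ← pow_mul, show (j + j) * ((p - 1) / 2) = (p - 1) * j by
    have : p - 1 = 2 * ((p - 1) / 2) := by omega
    conv_rhs => rw [this]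
    ring, pow_mul, ← hord, ← Units.val_pow_eq_pow_val, pow_orderOf_eq_one, Units.val_one, one_pow]

theorem alt_le (h5 : 5 ≤ p) (G : Subgroup (Perm (Option (ZMod p)))) (htr : ∀ β, tr β ∈ G)
    (hmov : ∃ g ∈ G, g none ≠ none) (ρ : Perm (Option (ZMod p))) (hρ : ρ.IsSwap)
    (hn : ρ ∈ Subgroup.normalizer (G : Set (Perm (Option (ZMod p))))) :
    alternatingGroup (Option (ZMod p)) ≤ G := by
  classical
  obtain ⟨g0, hg0, hg0'⟩ := hmov
  have h1 : ∀ c, ∃ g ∈ G, g none = c := by
    intro c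
    cases c with
    | none => exact ⟨1, G.one_mem, rfl⟩
    | some u =>
      obtain ⟨u0, hu0⟩ := Option.ne_none_iff_exists'.mp hg0'
      refine ⟨tr (u - u0) * g0, G.mul_mem (htr _) hg0, ?_⟩
      rw [Perm.mul_apply, hu0, tr_apply]; simp
  have h2 : ∀ c d, c ≠ d → ∃ g ∈ G, g none = c ∧ g (some 0) = d := by
    intro c d hcd
    obtain ⟨h, hh, hh'⟩ := h1 c
    have : h⁻¹ d ≠ none := by
      intro h3; apply hcd; rw [← hh', ← h3]; simp
    obtain ⟨v, hv⟩ := Option.ne_none_iff_exists'.mp this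
    refine ⟨h * tr v, G.mul_mem hh (htr v), ?_, ?_⟩
    · rw [Perm.mul_apply, tr_apply]; simpa using hh'
    · rw [Perm.mul_apply, tr_apply]; simp [← hv]
  obtain ⟨a, b, hab, rfl⟩ := hρ
  have hN : Subgroup.normalizer (G : Set (Perm (Option (ZMod p)))) = ⊤ := by
    rw [eq_top_iff, ← closure_isSwap, Subgroup.closure_le]
    rintro _ ⟨c, d, hcd, rfl⟩
    obtain ⟨g, hg, e1, e2⟩ := h2 a b hab
    obtain ⟨g', hg', e1', e2'⟩ := h2 c d hcd
    have : swap c d = (g' * g⁻¹) * swap a b * (g' * g⁻¹)⁻¹ := by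
      rw [← swap_apply_apply, ← e1, ← e2, ← e1', ← e2']; simp
    rw [this]
    have hm : g' * g⁻¹ ∈ Subgroup.normalizer (G : Set (Perm (Option (ZMod p)))) :=
      Subgroup.le_normalizer (G.mul_mem hg' (G.inv_mem hg))
    exact Subgroup.mul_mem _ (Subgroup.mul_mem _ hm hn) (Subgroup.inv_mem _ hm)
  have : G.Normal := Subgroup.normalizer_eq_top_iff.mp hN
  refine alternatingGroup_le_of_normal ?_ ?_
  · rw [Nat.card_eq_fintype_card, Fintype.card_option, ZMod.card]; omega
  · refine ⟨⟨⟨g0, hg0⟩, 1, fun h => hg0' ?_⟩⟩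
    have : g0 = 1 := congrArg Subtype.val h
    rw [this]; rfl

theorem classify (h5 : 5 ≤ p) (I : Subgroup (alternatingGroup (Fin (p + 1))))
    (hI : ∃ P : Subgroup (alternatingGroup (Fin (p + 1))), ∃ g ∈ I,
      P ≤ I ∧ Nat.card P = p ∧ (∀ x ∈ I, ∀ y ∈ P, x * y * x⁻¹ ∈ P) ∧
      ∀ x ∈ I, ∃ n : ℤ, ∃ y ∈ P, x = g ^ n * y) :
    ∃ (e : Fin (p + 1) ≃ Option (ZMod p)) (m : ℕ) (hm : 0 < m), m ∣ (p - 1) / 2 ∧
      ∀ x : alternatingGroup (Fin (p + 1)), x ∈ I ↔ e.permCongrHom x ∈ Aff p m hm := by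
  classical
  obtain ⟨P, g, hg, hPI, hP, hnorm, hgen⟩ := hI
  have : Nontrivial P := by
    rw [← Finite.one_lt_card_iff_nontrivial, hP]; omega
  obtain ⟨t, ht⟩ := exists_ne (1 : P)
  have hpow : ∀ y ∈ P, ∃ j : ℕ, (t : alternatingGroup (Fin (p + 1))) ^ j = y := by
    intro y hy
    obtain ⟨j, hj⟩ := mem_powers_of_prime_card hP (g := t) (g' := ⟨y, hy⟩) ht
    exact ⟨j, by simpa using congrArg Subtype.val hj⟩
  set τ : Perm (Fin (p + 1)) := ((t : alternatingGroup (Fin (p + 1))) : Perm (Fin (p + 1)))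
    with hτ
  have hord : orderOf τ = p := by
    rw [hτ, Subgroup.orderOf_coe, Subgroup.orderOf_coe]
    apply orderOf_eq_prime _ ht
    have := pow_card_eq_one' (x := t)
    rwa [hP] at this
  have hcyc : τ.IsCycle := isCycle_of_prime_order' (by rw [hord]; exact hp.out)
    (by rw [hord, Fintype.card_fin]; omega)
  have hsupp : τ.support.card = p := by rw [← hcyc.orderOf, hord]
  obtain ⟨s, hs⟩ : ∃ s, τ.supportᶜ = {s} := by
    rw [← Finset.card_eq_one, Finset.card_compl, hsupp, Fintype.card_fin]; omega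
  have hfix : ∀ x, τ x = x ↔ x = s := by
    intro x
    rw [← Finset.mem_singleton (b := x), ← hs, Finset.mem_compl, notMem_support]
  obtain ⟨i0, hi0, -⟩ := id hcyc
  set F : Option (ZMod p) → Fin (p + 1) := fun o => o.elim s (fun u => (τ ^ u.val) i0) with hF
  have hFn : ∀ n : ℕ, F (some (n : ZMod p)) = (τ ^ n) i0 := by
    intro n
    simp only [hF, Option.elim, ZMod.val_natCast]
    rw [← pow_mod_orderOf τ n, hord]
  have hne : ∀ n : ℕ, (τ ^ n) i0 ≠ s := by
    intro n h
    have h1 := (hfix _).mpr h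
    rw [← Perm.mul_apply, ← pow_succ', pow_succ, Perm.mul_apply] at h1
    exact hi0 ((τ ^ n).injective h1)
  have hinj : Function.Injective F := by
    intro o o' h
    cases o with
    | none => cases o' with
      | none => rfl
      | some u => exact absurd h.symm (hne _)
    | some u => cases o' with
      | none => exact absurd h (hne _)
      | some u' =>
        have h1 : τ ^ u.val = τ ^ u'.val := hcyc.pow_eq_pow_iff.mpr ⟨i0, hi0, h⟩
        rw [pow_eq_pow_iff_modEq, hord] at h1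
        have h2 := (ZMod.natCast_eq_natCast_iff _ _ _).mpr h1
        simpa using h2
  have hbij : Function.Bijective F := (Fintype.bijective_iff_injective_and_card F).mpr
    ⟨hinj, by rw [Fintype.card_option, ZMod.card, Fintype.card_fin]⟩
  set e := (Equiv.ofBijective F hbij).symm with he
  have hcongr : ∀ (x : Perm (Fin (p + 1))) (α β : ZMod p), (∀ o, x (F o) = F (aff α β o)) →
      ∀ o, e.permCongrHom x o = aff α β o := by
    intro x α β h o
    rw [Equiv.permCongrHom_coe, permCongr_apply, he, Equiv.symm_symm, Equiv.ofBijective_apply, h,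
      Equiv.symm_apply_eq, Equiv.ofBijective_apply]
  have hτs : ∀ n : ℕ, (τ ^ n) s = s := fun n => pow_apply_eq_self_of_apply_eq_self
    ((hfix s).mpr rfl) n
  have htr : ∀ n : ℕ, e.permCongrHom (τ ^ n) = tr (n : ZMod p) := by
    intro n
    ext1 o
    rw [tr_apply]
    refine hcongr _ _ _ (fun o => ?_) o
    cases o with
    | none => exact hτs n
    | some u =>
      rw [aff_some, one_mul, ← ZMod.natCast_zmod_val u, ← Nat.cast_add, hFn, hFn, add_comm u.val,
        pow_add, Perm.mul_apply]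
  obtain ⟨j, hj⟩ := hpow _ (hnorm g hg t t.2)
  have hj' : τ ^ j = (g : Perm _) * τ * (g : Perm _)⁻¹ := by
    simpa using congrArg Subtype.val hj
  have hj0 : (j : ZMod p) ≠ 0 := by
    intro h
    have h1 : τ ^ j = 1 := by
      rw [← orderOf_dvd_iff_pow_eq_one, hord]; exact (ZMod.natCast_eq_zero_iff j p).mp h
    rw [hj'] at h1
    have h2 : τ = 1 := by
      have := congrArg (fun z => (g : Perm (Fin (p + 1)))⁻¹ * z * g) h1
      simpa [mul_assoc] using this
    rw [h2] at hi0; exact hi0 rfl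
  have hgs : (g : Perm (Fin (p + 1))) s = s := by
    by_contra h
    have h1 : τ ((g : Perm _) s) ≠ (g : Perm _) s := fun h2 => h ((hfix _).mp h2)
    have h2 : (τ ^ j) ((g : Perm _) s) = (g : Perm _) s := by
      rw [hj']; simp [(hfix s).mpr rfl]
    have h3 := (hcyc.pow_eq_one_iff' h1).mpr h2
    rw [← orderOf_dvd_iff_pow_eq_one, hord] at h3
    exact hj0 ((ZMod.natCast_eq_zero_iff j p).mpr h3)
  obtain ⟨b, hb⟩ := hcyc.exists_pow_eq hi0 (y := (g : Perm _) i0) (by
    intro h
    have h1 := (hfix _).mp h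
    rw [← hgs] at h1
    exact hi0 ((hfix _).mpr ((g : Perm _).injective h1)))
  have hgaff : ∀ o, e.permCongrHom g o = aff (j : ZMod p) (b : ZMod p) o := by
    refine hcongr _ _ _ fun o => ?_
    cases o with
    | none => exact hgs
    | some u =>
      rw [aff_some, ← ZMod.natCast_zmod_val u, ← Nat.cast_mul, ← Nat.cast_add, hFn, hFn, pow_add,
        pow_mul, hj', conj_pow, Perm.mul_apply (_ * _ * _), hb]
      simp
  have hfin : IsOfFinOrder (j : ZMod p) :=
    isOfFinOrder_iff_pow_eq_one.mpr ⟨p - 1, by omega, ZMod.pow_card_sub_one_eq_one hj0⟩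
  have hm : 0 < orderOf (j : ZMod p) := hfin.orderOf_pos
  have hgA : e.permCongrHom g ∈ Aff p _ hm := ⟨j, b, pow_orderOf_eq_one _, hgaff⟩
  refine ⟨e, orderOf (j : ZMod p), hm, ?_, fun x => ⟨fun hx => ?_, ?_⟩⟩
  · apply orderOf_dvd_of_pow_eq_one
    refine pow_half_of_sign h5 hj0 hgaff ?_
    rw [Equiv.permCongrHom_coe, sign_permCongr]
    exact mem_alternatingGroup.mp g.2
  · obtain ⟨n, y, hy, rfl⟩ := hgen x hx
    obtain ⟨i, rfl⟩ := hpow y hy
    simp only [Subgroup.coe_mul, SubgroupClass.coe_zpow, SubmonoidClass.coe_pow, map_mul,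
      map_zpow]
    exact Subgroup.mul_mem _ (Subgroup.zpow_mem _ hgA n) (by rw [← hτ, htr]; exact tr_mem _ _ _)
  · rintro ⟨α, β, h1, h2⟩
    have : NeZero (orderOf (j : ZMod p)) := ⟨hm.ne'⟩
    obtain ⟨i, -, rfl⟩ := (IsPrimitiveRoot.orderOf (j : ZMod p)).eq_pow_of_pow_eq_one h1
    have h3 : ∀ i : ℕ, ∃ β' : ZMod p, ∀ o,
        e.permCongrHom ((g : Perm _) ^ i) o = aff ((j : ZMod p) ^ i) β' o := by
      intro i
      induction i with
      | zero => exact ⟨0, fun o => by cases o <;> simp⟩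
      | succ i ih =>
        obtain ⟨β', hβ'⟩ := ih
        refine ⟨(j : ZMod p) ^ i * b + β', fun o => ?_⟩
        rw [pow_succ, map_mul, Perm.mul_apply, hgaff, hβ', aff_aff, ← pow_succ]
    obtain ⟨β', hβ'⟩ := h3 i
    have h4 : (x : Perm _) = τ ^ (β - β').val * (g : Perm _) ^ i := by
      apply e.permCongrHom.injective
      ext1 o
      rw [h2, map_mul, htr, Perm.mul_apply, hβ', tr_apply, aff_aff]
      simp
    have h5 : x = (t : alternatingGroup (Fin (p + 1))) ^ (β - β').val * g ^ i :=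
      Subtype.ext (by simpa using h4)
    rw [h5]
    exact I.mul_mem (I.pow_mem (hPI t.2) _) (I.pow_mem hg _)

end Pool.Agent.H19Z.IC
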