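import Pool.Agent.H19Z.IC.Geo1
import Pool.Agent.H19Z.IC.Grp

/-!
The polynomial `N(Z) - t^n Z` over `k(t)`, its roots, and the inertia group above infinity.
-/

set_option autoImplicit false
set_option linter.unusedSectionVars false

namespace Pool.Agent.H19Z.IC

open Polynomial

variable {k : Type} [Field k] {p a : ℕ} (D : Data k p a) (n : ℕ)

/-- the polynomial over `k(t)` -/
noncomputable def Data.H : (RatFunc k)[X] :=
  (X ^ (p + 1) + D.M).map (algebraMap k (RatFunc k)) - C (RatFunc.X ^ n) * X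

/-- the variable inside `L` -/
noncomputable abbrev tt (k L : Type) [Field k] [Field L] [Algebra (RatFunc k) L] : L :=
  algebraMap (RatFunc k) L RatFunc.X

variable {L : Type} [Field L] [Algebra k L] [Algebra (RatFunc k) L]
  [IsScalarTower k (RatFunc k) L]

theorem tt_ne : tt k L ≠ 0 := by simpa [tt] using RatFunc.X_ne_zero

theorem Data.aeval_H (z : L) :
    aeval z (D.H n) = aeval z (X ^ (p + 1) + D.M) - tt k L ^ n * z := by
  rw [Data.H, map_sub, aeval_map_algebraMap, map_mul, aeval_C, aeval_X, map_pow]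

theorem Data.H_monic_deg (hap : a ≤ p) (hp : 0 < p) :
    (D.H n).Monic ∧ (D.H n).natDegree = p + 1 := by
  have e : D.H n = X ^ (p + 1) + (D.M.map (algebraMap k (RatFunc k)) - C (RatFunc.X ^ n) * X) := by
    rw [Data.H, Polynomial.map_add, Polynomial.map_pow, map_X]; ring
  have hd : (D.M.map (algebraMap k (RatFunc k)) - C (RatFunc.X ^ n) * X).natDegree < p + 1 := by
    refine lt_of_le_of_lt (natDegree_sub_le _ _) (max_lt ?_ ?_)
    · rw [natDegree_map, D.deg]; omega
    · exact lt_of_le_of_lt ((natDegree_C_mul_le _ _).trans natDegree_X_le) (by omega)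
  rw [e]
  refine ⟨monic_X_pow_add ?_, ?_⟩
  · exact lt_of_le_of_lt degree_le_natDegree (by exact_mod_cast hd)
  · rw [natDegree_add_eq_left_of_natDegree_lt (by rwa [natDegree_X_pow]), natDegree_X_pow]

theorem Data.mem_root (hap : a ≤ p) (hp : 0 < p) {z : L} :
    z ∈ (D.H n).rootSet L ↔ D.Rt (tt k L ^ n) z := by
  rw [mem_rootSet_of_ne (D.H_monic_deg n hap hp).1.ne_zero, D.aeval_H, sub_eq_zero]; rfl

theorem Data.aeval_N_b {β : k} {ν : ℕ} {g : k[X]} (hν : ν ≠ 0)
    (hN : X ^ (p + 1) + D.M = (X - C β) ^ ν * g) :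
    aeval (algebraMap k L β) (X ^ (p + 1) + D.M) = 0 := by
  rw [hN]; simp [hν]

theorem Data.aeval_deriv_H (z : L) :
    aeval z (derivative (D.H n)) = aeval z (derivative (X ^ (p + 1) + D.M)) - tt k L ^ n := by
  rw [Data.H, derivative_sub, derivative_map, map_sub, aeval_map_algebraMap, derivative_C_mul,
    derivative_X, mul_one, aeval_C, map_pow]

theorem Data.H_sep [CharP k p] (ha : a ≠ 0) : (D.H n).Separable := by
  rw [separable_def, isCoprime_iff_aeval_ne_zero_of_isAlgClosed (RatFunc k)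
    (AlgebraicClosure (RatFunc k))]
  intro z
  by_contra hcon
  push Not at hcon
  obtain ⟨h1, h2⟩ := hcon
  rw [D.aeval_H, sub_eq_zero] at h1
  rw [D.aeval_deriv_H] at h2
  have h3 := Data.Rt.deriv (D := D) h1
  rw [h2, mul_zero] at h3
  have ht : tt k (AlgebraicClosure (RatFunc k)) ^ n ≠ 0 := pow_ne_zero _ tt_ne
  rcases mul_eq_zero.mp h3.symm with h4 | h4
  · rcases mul_eq_zero.mp h4 with h5 | h5
    · exact D.cne (by simpa using h5)
    · have h6 : z = algebraMap k _ D.b1 := sub_eq_zero.mp (pow_eq_zero_iff' .. |>.mp h5).1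
      rw [h6, D.aeval_N_b ha D.hN1] at h1
      exact mul_ne_zero ht (by simpa using D.b1ne) h1.symm
  · have h6 : z = algebraMap k _ D.b2 := sub_eq_zero.mp h4
    rw [h6, D.aeval_N_b two_ne_zero D.hN2] at h1
    exact mul_ne_zero ht (by simpa using D.b2ne) h1.symm

theorem Data.card_root [CharP k p] (ha : a ≠ 0) (hap : a ≤ p) (hp : 0 < p)
    [IsSplittingField (RatFunc k) L (D.H n)] : Fintype.card ((D.H n).rootSet L) = p + 1 := by
  rw [card_rootSet_eq_natDegree (D.H_sep n ha) (IsSplittingField.splits L _),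
    (D.H_monic_deg n hap hp).2]

theorem Data.exists_root_near {Γ : Type*} [LinearOrderedCommGroupWithZero Γ] (w : Valuation L Γ)
    (hap : a ≤ p) (hp : 0 < p) [IsSplittingField (RatFunc k) L (D.H n)] {y : L}
    (hy : w (aeval y (D.H n)) < 1) : ∃ z ∈ (D.H n).rootSet L, w (z - y) < 1 := by
  classical
  by_contra hcon
  push Not at hcon
  rw [(IsSplittingField.splits L _).aeval_eq_prod_aroots_of_monic (D.H_monic_deg n hap hp).1,
    map_multiset_prod, Multiset.map_map] at hy
  refine absurd hy (not_lt.mpr (Multiset.one_le_prod_of_one_le fun x hx => ?_))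
  obtain ⟨z, hz, rfl⟩ := Multiset.mem_map.mp hx
  have := hcon z (by rw [rootSet_def]; simpa using hz)
  rwa [w.map_sub_swap] at this

/-- the action on the roots, transported -/
noncomputable def theta {ι : Type} (E : (D.H n).rootSet L ≃ ι) :
    (L ≃ₐ[RatFunc k] L) →* Equiv.Perm ι :=
  E.permCongrHom.toMonoidHom.comp
    (MulAction.toPermHom (L ≃ₐ[RatFunc k] L) ((D.H n).rootSet L))

theorem theta_apply {ι : Type} (E : (D.H n).rootSet L ≃ ι) (σ : L ≃ₐ[RatFunc k] L)
    (z : (D.H n).rootSet L) : theta D n E σ (E z) = E (σ • z) := by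
  simp [theta]

theorem eq_one_of_fix [IsSplittingField (RatFunc k) L (D.H n)] (σ : L ≃ₐ[RatFunc k] L)
    (h : ∀ z ∈ (D.H n).rootSet L, σ z = z) : σ = 1 := by
  have := AlgHom.ext_of_adjoin_eq_top (IsSplittingField.adjoin_rootSet L (D.H n))
    (φ₁ := (σ : L →ₐ[RatFunc k] L)) (φ₂ := AlgHom.id _ L) (fun z hz => h z hz)
  ext z
  exact DFunLike.congr_fun this z

theorem theta_inj [IsSplittingField (RatFunc k) L (D.H n)] {ι : Type}
    (E : (D.H n).rootSet L ≃ ι) : Function.Injective (theta D n E) := by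
  rw [injective_iff_map_eq_one]
  intro σ hσ
  refine eq_one_of_fix D n σ fun z hz => ?_
  have := theta_apply D n E σ ⟨z, hz⟩
  rw [hσ] at this
  exact (congrArg Subtype.val (E.injective this)).symm

theorem exists_zmod [hp : Fact p.Prime] [CharP k p] {c : k} (hc : c ^ p = c) :
    ∃ u : ZMod p, ZMod.castHom (dvd_refl p) k u = c := by
  have := (Subfield.mem_bot_iff_pow_eq_self k p).mpr hc
  rw [← ZMod.fieldRange_castHom_eq_bot p] at this
  exact this

theorem inf_main [IsAlgClosed k] [hp : Fact p.Prime] [CharP k p]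
    [IsSplittingField (RatFunc k) L (D.H n)] {m e : ℕ} (hm : 0 < m) (hme : p - 1 = 2 * e * m)
    (hn : n = 2 * a * e) (ha : 3 ≤ a) (hap : a + 2 ≤ p) (hcop : Nat.Coprime (a * (a - 2)) m)
    {Γ : Type} [LinearOrderedCommGroupWithZero Γ] (w : Valuation L Γ) (hw : Triv k w)
    (ht : 1 < w (tt k L)) :
    haveI := IsSplittingField.finiteDimensional L (D.H n)
    ∃ E : (D.H n).rootSet L ≃ Option (ZMod p),
      (∀ σ ∈ inertia (RatFunc k) w, theta D n E σ ∈ Aff p m hm) ∧
      p * m ∣ Nat.card (inertia (RatFunc k) w) ∧ w (E.symm none : L) < 1 := by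
  classical
  have := IsSplittingField.finiteDimensional L (D.H n)
  have : IsGalois (RatFunc k) L := IsGalois.of_separable_splitting_field (D.H_sep n (by omega))
  have hp0 := hp.out.pos
  have he : 0 < e := Nat.pos_of_ne_zero (by rintro rfl; simp at hme; omega)
  have hn0 : n ≠ 0 := by rw [hn]; positivity
  have hx : 1 < w (tt k L ^ n) := by rw [map_pow]; exact one_lt_pow₀ ht hn0
  have hR : ∀ z : (D.H n).rootSet L, D.Rt (tt k L ^ n) (z : L) := fun z =>
    (D.mem_root n (by omega) hp0).mp z.2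
  have hcard := D.card_root (L := L) n (by omega) (by omega) hp0
  have hπ : w (algebraMap (RatFunc k) L (RatFunc.X)⁻¹) < 1 := by
    rw [map_inv₀]; exact (w.one_lt_val_iff tt_ne).mp ht
  have hπ0 : (RatFunc.X : RatFunc k)⁻¹ ≠ 0 := inv_ne_zero RatFunc.X_ne_zero
  have hres : ∀ y : L, w y ≤ 1 → ∃ c : k, w (y - algebraMap k L c) < 1 := fun y hy =>
    exists_res (K := RatFunc k) hw (fac_inf.res hπ0 hw hπ) hy
  obtain ⟨z0, z1, hz0, hz1, hne⟩ : ∃ z0 z1 : (D.H n).rootSet L,
      1 < w (z0 : L) ∧ 1 < w (z1 : L) ∧ z1 ≠ z0 := by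
    obtain ⟨x, y, z, hxy, hxz, hyz⟩ := (Fintype.two_lt_card_iff (α := (D.H n).rootSet L)).mp
      (by rw [hcard]; omega)
    have u : ∀ x y : (D.H n).rootSet L, x ≠ y → 1 < w (x : L) ∨ 1 < w (y : L) := by
      intro x y hxy
      by_contra hc
      push Not at hc
      exact hxy (Subtype.ext ((hR y).small_unique hw hx (hR x) hc.2 hc.1))
    rcases u x y hxy with h1 | h1
    · rcases u y z hyz with h2 | h2
      · exact ⟨x, y, h1, h2, hxy.symm⟩
      · exact ⟨x, z, h1, h2, hxz.symm⟩
    · rcases u x z hxz with h2 | h2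
      · exact ⟨x, y, h2, h1, hxy.symm⟩
      · exact ⟨y, z, h1, h2, hyz.symm⟩
  set δ : L := (z1 : L) - z0 with hδ
  have hδ0 : δ ≠ 0 := sub_ne_zero.mpr fun h => hne (Subtype.ext h)
  set κ : k := -(((a - 1 : ℕ) : k) * D.M.leadingCoeff) with hκ
  have hκ0 : κ ≠ 0 := neg_ne_zero.mpr (mul_ne_zero (cast_ne_zero_of_lt (p := p) (by omega)
    (by omega)) (leadingCoeff_ne_zero.mpr D.Mne))
  have hd0 := (hR z0).large_diff hw (by omega) (by omega) (hR z1) (hR z0) hz0 hz1 hz0
    (fun h => hne (Subtype.ext h))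
  have hratio : ∀ z z' : (D.H n).rootSet L, 1 < w (z : L) → 1 < w (z' : L) → z' ≠ z →
      w ((((z' : L) - z) / δ) ^ (p - 1) - algebraMap k L 1) < 1 := by
    intro z z' hz hz' hzz
    have h1 := (hR z).large_diff hw (by omega) (by omega) (hR z') (hR z0) hz hz' hz0
      (fun h => hzz (Subtype.ext h))
    have h2 := res_mul hw h1 (res_inv hw hκ0 hd0)
    rw [mul_inv_cancel₀ hκ0] at h2
    have e1 : (((z' : L) - z) / δ) ^ (p - 1) = ((z' : L) - z) ^ (p - 1) / (z0 : L) ^ (a - 2) *
        (δ ^ (p - 1) / (z0 : L) ^ (a - 2))⁻¹ := by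
      have := (hR z0).ne_zero
      rw [div_pow]; field_simp
    rw [e1]; exact h2
  have hunit : ∀ z z' : (D.H n).rootSet L, 1 < w (z : L) → 1 < w (z' : L) → z' ≠ z →
      w (((z' : L) - z) / δ) = 1 := by
    intro z z' hz hz' hzz
    have := eq_one_of_res hw one_ne_zero (hratio z z' hz hz' hzz)
    rw [map_pow] at this
    exact (pow_eq_one_iff_left (by omega)).mp this
  set ι := ZMod.castHom (dvd_refl p) k with hι
  have hcrd : ∀ z : (D.H n).rootSet L, ∃ u : ZMod p, 1 < w (z : L) →
      w (((z : L) - z0) / δ - algebraMap k L (ι u)) < 1 := by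
    intro z
    by_cases hz : 1 < w (z : L)
    swap
    · exact ⟨0, fun h => absurd h hz⟩
    by_cases hzz : z = z0
    · exact ⟨0, fun _ => by simp [hzz]⟩
    obtain ⟨c, hc⟩ := hres _ (hunit z0 z hz0 hz hzz).le
    have h1 := hw.res_unique (res_pow hw hc (p - 1)) (hratio z0 z hz0 hz hzz)
    obtain ⟨u, hu⟩ := exists_zmod (p := p) (c := c) (by
      conv_lhs => rw [show p = (p - 1) + 1 by omega, pow_succ, h1, one_mul])
    exact ⟨u, fun _ => by rw [hι, hu]; exact hc⟩
  choose crd hcrd using hcrd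
  set E0 : (D.H n).rootSet L → Option (ZMod p) :=
    fun z => if w (z : L) ≤ 1 then none else some (crd z) with hE0
  have hinj : Function.Injective E0 := by
    intro z z' h
    simp only [hE0] at h
    split_ifs at h with h1 h2 h2
    · exact Subtype.ext ((hR z').small_unique hw hx (hR z) h2 h1)
    · by_contra hzz
      have h3 := hunit z' z (not_le.mp h2) (not_le.mp h1) hzz
      have h4 := w.map_sub_lt (hcrd z (not_le.mp h1)) (hcrd z' (not_le.mp h2))
      rw [Option.some.inj h, sub_sub_sub_cancel_right, ← sub_div, sub_sub_sub_cancel_right,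
        h3] at h4
      exact lt_irrefl _ h4
  have hbij : Function.Bijective E0 := (Fintype.bijective_iff_injective_and_card E0).mpr
    ⟨hinj, by rw [hcard, Fintype.card_option, ZMod.card]⟩
  have hval : w δ ^ (p * m) = w (tt k L) ^ (a * (a - 2)) := by
    have h1 := eq_one_of_res hw hκ0 hd0
    have hz00 : w (z0 : L) ≠ 0 := ne_of_gt (lt_trans zero_lt_one hz0)
    rw [map_div₀, map_pow, map_pow, div_eq_one_iff_eq (pow_ne_zero _ hz00)] at h1
    have h2 := (hR z0).large hw (by omega) hz0
    rw [map_pow] at h2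
    apply (pow_left_inj₀ zero_le zero_le (n := 2 * e) (by omega)).mp
    rw [← pow_mul, ← pow_mul, show p * m * (2 * e) = (p - 1) * p by rw [hme]; ring, pow_mul, h1,
      ← pow_mul, mul_comm (a - 2) p, pow_mul, h2, ← pow_mul, hn]
    congr 1; ring
  refine ⟨Equiv.ofBijective E0 hbij, fun σ hσ => ?_, ?_, ?_⟩
  · have hσv := inertia_val hσ
    have hl : ∀ z : (D.H n).rootSet L, w ((σ • z : (D.H n).rootSet L) : L) = w (z : L) :=
      fun z => hσv z
    have hα : w (σ δ / δ - algebraMap k L (ι (crd (σ • z1) - crd (σ • z0)))) < 1 := by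
      have h4 := w.map_sub_lt (hcrd (σ • z1) (by rw [hl]; exact hz1))
        (hcrd (σ • z0) (by rw [hl]; exact hz0))
      convert h4 using 2
      simp only [hδ, map_sub, rootSet.coe_smul, AlgEquiv.smul_def]
      ring
    refine ⟨crd (σ • z1) - crd (σ • z0), crd (σ • z0), ?_, fun o => ?_⟩
    · set y : L := δ ^ (p * m) / tt k L ^ (a * (a - 2)) with hy
      have ht0 : w (tt k L) ≠ 0 := ne_of_gt (lt_trans zero_lt_one ht)
      have hy1 : w y = 1 := by
        rw [hy, map_div₀, map_pow, map_pow, hval, div_self (pow_ne_zero _ ht0)]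
      have h1 := hσ y hy1.le
      have h2 : w ((σ δ / δ) ^ (p * m) - algebraMap k L 1) < 1 := by
        have e1 : (σ δ / δ) ^ (p * m) - algebraMap k L 1 = (σ y - y) / y := by
          have := tt_ne (k := k) (L := L)
          rw [hy, map_div₀, map_pow, map_pow, AlgEquiv.commutes, map_one, div_pow]
          field_simp
        rw [e1, map_div₀, hy1, div_one]; exact h1
      have h3 := hw.res_unique (res_pow hw hα (p * m)) h2
      rw [← map_pow, ← map_one ι] at h3
      have h4 := ι.injective h3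
      rwa [pow_mul, ZMod.pow_card] at h4
    · obtain ⟨z, rfl⟩ := (Equiv.ofBijective E0 hbij).surjective o
      rw [theta_apply, Equiv.ofBijective_apply, Equiv.ofBijective_apply]
      simp only [hE0, hl]
      split_ifs with h1
      · rfl
      rw [aff_some]
      congr 1
      apply ι.injective
      have hz := not_le.mp h1
      refine hw.res_unique (hcrd (σ • z) (by rw [hl]; exact hz)) ?_
      have h2 := hcrd z hz
      have h3 : w (σ (((z : L) - z0) / δ) - algebraMap k L (ι (crd z))) < 1 := by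
        have := w.map_add_lt (hσ _ (le_of_res hw h2)) h2
        rwa [sub_add_sub_cancel] at this
      have h4 := w.map_add_lt (res_mul hw hα h3) (hcrd (σ • z0) (by rw [hl]; exact hz0))
      convert h4 using 2
      have hσδ : σ δ ≠ 0 := by simpa using hδ0
      simp only [map_div₀, map_sub σ, rootSet.coe_smul, AlgEquiv.smul_def, map_add, map_mul]
      field_simp
      ring
  · have hγ0 : 0 < w (algebraMap (RatFunc k) L (RatFunc.X)⁻¹) :=
      w.pos_iff.mpr (by simpa using RatFunc.X_ne_zero)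
    obtain ⟨j, hj⟩ := pow_card_inertia (K := RatFunc k) hw _ hγ0 hπ
      (fun b hb => by
        obtain ⟨j, hj⟩ := fac_inf.val (L := L) hπ0 b hb
        exact ⟨j, hj Γ w hw hπ⟩) hres hδ0
    set N := Nat.card (inertia (RatFunc k) w)
    have h1 : w (tt k L) ^ ((a * (a - 2) * N : ℕ) : ℤ) = w (tt k L) ^ (-j * (p * m : ℕ)) := by
      rw [zpow_natCast, pow_mul, ← hval, ← pow_mul, mul_comm, pow_mul, hj, map_inv₀, map_inv₀,
        inv_zpow', zpow_mul, zpow_natCast]
    have h2 := zpow_right_injective₀ (lt_trans zero_lt_one ht) ht.ne' h1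
    have h3 : p * m ∣ a * (a - 2) * N := by
      rw [← Int.natCast_dvd_natCast, h2]; exact Dvd.intro_left _ rfl
    refine Nat.Coprime.dvd_of_dvd_mul_left (Nat.Coprime.mul_left ?_ hcop.symm) h3
    refine Nat.Coprime.mul_right ?_ ?_
    · exact (Nat.Prime.coprime_iff_not_dvd hp.out).mpr
        (Nat.not_dvd_of_pos_of_lt (by omega) (by omega))
    · exact (Nat.Prime.coprime_iff_not_dvd hp.out).mpr
        (Nat.not_dvd_of_pos_of_lt (by omega) (by omega))
  · set z := (Equiv.ofBijective E0 hbij).symm none with hz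
    have h1 : E0 z = none := (Equiv.ofBijective E0 hbij).apply_symm_apply none
    simp only [hE0] at h1
    split_ifs at h1 with h2
    exact (hR z).small_lt hw hx h2

end Pool.Agent.H19Z.IC
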