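import Pool.Agent.H19Z.IC.Geo2

/-!
No ramification over the affine line, the Galois group is even and transitive, and swaps in
the normaliser.
-/

set_option autoImplicit false
set_option linter.unusedSectionVars false

namespace Pool.Agent.H19Z.IC

open Polynomial

variable {k : Type} [Field k] {p a : ℕ} (D : Data k p a) (n : ℕ)
variable {L : Type} [Field L] [Algebra k L] [Algebra (RatFunc k) L]
  [IsScalarTower k (RatFunc k) L]

theorem unram [hp : Fact p.Prime] [CharP k p] [IsSplittingField (RatFunc k) L (D.H n)] {e : ℕ}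
    (hn : n = 2 * a * e) (ha : 3 ≤ a) (hap : a + 2 ≤ p)
    {Γ : Type} [LinearOrderedCommGroupWithZero Γ] (w : Valuation L Γ) (hw : Triv k w)
    (ht : w (tt k L) ≤ 1) (σ : L ≃ₐ[RatFunc k] L) (hσ : ∀ y, w y ≤ 1 → w (σ y - y) < 1) :
    σ = 1 := by
  have hp0 := hp.out.pos
  refine eq_one_of_fix D n σ fun z hz => ?_
  have hz' : σ z ∈ (D.H n).rootSet L := smul_mem_rootSet σ hz
  rw [D.mem_root n (by omega) hp0] at hz hz'
  have hx : w (tt k L ^ n) ≤ 1 := by rw [map_pow]; exact pow_le_one' ht n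
  by_cases h1 : w (z - algebraMap k L D.b1) < 1
  · have e1 : tt k L ^ n = (tt k L ^ (2 * e)) ^ a := by rw [← pow_mul, hn]; congr 1; ring
    rw [e1] at hz hz'
    exact hz.fix_near hw D.b1ne (cast_ne_zero_of_lt (p := p) (by omega) (by omega)) D.hN1 D.hh1
      (pow_ne_zero _ tt_ne) h1 (σ : L →+* L) hσ (gal_const σ _) (by simp) hz'
  by_cases h2 : w (z - algebraMap k L D.b2) < 1
  · have e1 : tt k L ^ n = (tt k L ^ (a * e)) ^ 2 := by rw [← pow_mul, hn]; congr 1; ring
    rw [e1] at hz hz'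
    exact hz.fix_near hw D.b2ne (cast_ne_zero_of_lt (p := p) (by omega) (by omega)) D.hN2 D.hh2
      (pow_ne_zero _ tt_ne) h2 (σ : L →+* L) hσ (gal_const σ _) (by simp) hz'
  have h3 := hz.val_one hw (by omega) hp0 hx
  exact hz.sepU hw hz' h3 (not_lt.mp h1) (not_lt.mp h2) (hσ z h3.le)

theorem sign_theta [IsAlgClosed k] [hp : Fact p.Prime] [CharP k p]
    [IsSplittingField (RatFunc k) L (D.H n)] {e : ℕ}
    (hn : n = 2 * a * e) (ha : 3 ≤ a) (hap : a + 2 ≤ p) {ι : Type} [Fintype ι] [DecidableEq ι]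
    (E : (D.H n).rootSet L ≃ ι) (σ : L ≃ₐ[RatFunc k] L) :
    Equiv.Perm.sign (theta D n E σ) = 1 := by
  classical
  have hp0 := hp.out.pos
  have hcard := D.card_root (L := L) n (by omega) (by omega) hp0
  let F : (D.H n).rootSet L ≃ Fin (p + 1) := Fintype.equivFinOfCardEq hcard
  have hs : Equiv.Perm.sign (theta D n E σ) = Equiv.Perm.sign (theta D n F σ) := by
    simp only [theta, MonoidHom.comp_apply, MulEquiv.coe_toMonoidHom, Equiv.permCongrHom_coe,
      Equiv.Perm.sign_permCongr]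
  rw [hs]
  set π := theta D n F σ with hπ
  set r : Fin (p + 1) → L := fun i => (F.symm i : L) with hr
  have hrinj : Function.Injective r := Subtype.val_injective.comp F.symm.injective
  have hrσ : ∀ i, σ (r i) = r (π i) := by
    intro i
    have := theta_apply D n F σ (F.symm i)
    rw [Equiv.apply_symm_apply] at this
    simp only [hr, hπ, this, Equiv.symm_apply_apply, rootSet.coe_smul, AlgEquiv.smul_def]
  have hR : ∀ i, D.Rt (tt k L ^ n) (r i) := fun i =>
    (D.mem_root n (by omega) hp0).mp (F.symm i).2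
  have hmon := (D.H_monic_deg n (by omega) hp0).1
  have hnod : (D.H n).map (algebraMap (RatFunc k) L) = Lagrange.nodal Finset.univ r := by
    have h1 := (IsSplittingField.splits L (D.H n)).eq_prod_roots_of_monic (hmon.map _)
    have h2 : ((D.H n).map (algebraMap (RatFunc k) L)).roots = Finset.univ.val.map r := by
      rw [Multiset.Nodup.ext (nodup_roots ((D.H_sep n (by omega)).map))
        (Multiset.Nodup.map hrinj Finset.univ.nodup)]
      intro z
      rw [Multiset.mem_map]
      constructor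
      · intro hz
        exact ⟨F ⟨z, by rw [rootSet_def]; simpa using hz⟩, Finset.mem_univ_val _, by simp [hr]⟩
      · rintro ⟨i, -, rfl⟩
        have : r i ∈ (D.H n).rootSet L := (F.symm i).2
        rw [rootSet_def] at this
        simpa using this
    rw [h1, h2, Multiset.map_map]
    rfl
  have hev : ∀ y : L, ∏ i, (y - r i) = aeval y (D.H n) := by
    intro y; rw [← Lagrange.eval_nodal, ← hnod, eval_map_algebraMap]
  have hder : ∀ i, ∏ j ∈ {i}ᶜ, (r i - r j) = aeval (r i) (derivative (D.H n)) := by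
    intro i
    rw [← eval_map_algebraMap, ← derivative_map, hnod,
      Lagrange.eval_nodal_derivative_eval_node_eq (Finset.mem_univ i), Lagrange.eval_nodal,
      Finset.compl_singleton]
  set x := tt k L ^ n with hx
  have hneg : ∀ y : L, ∏ i, (r i - y) = (-1) ^ (p + 1) * aeval y (D.H n) := by
    intro y
    have : (-1 : L) ^ (p + 1) = ∏ _i : Fin (p + 1), (-1 : L) := by simp
    rw [← hev, this, ← Finset.prod_mul_distrib]
    exact Finset.prod_congr rfl fun i _ => by ring
  set Δ := ∏ i, ∏ j ∈ Finset.Ioi i, (r i - r j) with hΔ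
  have hΔ0 : Δ ≠ 0 := Finset.prod_ne_zero_iff.mpr fun i _ => Finset.prod_ne_zero_iff.mpr
    fun j hj => sub_ne_zero.mpr fun h => (Finset.mem_Ioi.mp hj).ne (hrinj h)
  obtain ⟨ε, hε⟩ : ∃ ε : k, Δ ^ 2 = algebraMap k L ε * ∏ i, aeval (r i) (derivative (D.H n)) := by
    refine ⟨∏ i : Fin (p + 1), ∏ _j ∈ Finset.Ioi i, (-1), ?_⟩
    simp only [← hder]
    rw [← Finset.prod_prod_Ioi_mul_eq_prod_prod_off_diag (fun j i => r i - r j), hΔ,
      ← Finset.prod_pow, map_prod, ← Finset.prod_mul_distrib]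
    refine Finset.prod_congr rfl fun i _ => ?_
    rw [← Finset.prod_pow, map_prod, ← Finset.prod_mul_distrib]
    refine Finset.prod_congr rfl fun j _ => ?_
    simp only [map_neg, map_one]; ring
  have h1 : (∏ i, r i) * ∏ i, aeval (r i) (derivative (D.H n)) =
      algebraMap k L D.c ^ (p + 1) * (∏ i, (r i - algebraMap k L D.b1)) ^ (a - 1) *
        ∏ i, (r i - algebraMap k L D.b2) := by
    rw [← Finset.prod_mul_distrib, ← Finset.prod_pow]
    have : algebraMap k L D.c ^ (p + 1) = ∏ _i : Fin (p + 1), algebraMap k L D.c := by simp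
    rw [this, ← Finset.prod_mul_distrib, ← Finset.prod_mul_distrib]
    refine Finset.prod_congr rfl fun i _ => ?_
    rw [D.aeval_deriv_H, (hR i).deriv]
  have h2 : ∏ i, r i = algebraMap k L ((-1) ^ (p + 1) * (X ^ (p + 1) + D.M).eval 0) := by
    have := hneg 0
    simp only [sub_zero] at this
    rw [this, D.aeval_H, mul_zero, sub_zero, ← map_zero (algebraMap k L), aeval_algebraMap_apply,
      coe_aeval_eq_eval]
    simp
  rw [hneg, hneg, D.aeval_H, D.aeval_H, D.aeval_N_b (by omega) D.hN1,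
    D.aeval_N_b two_ne_zero D.hN2, h2, ← hx] at h1
  have h3 : algebraMap k L ((-1) ^ (p + 1) * (X ^ (p + 1) + D.M).eval 0) ≠ 0 := by
    rw [_root_.map_ne_zero]
    exact mul_ne_zero (pow_ne_zero _ (by simp)) D.N0
  obtain ⟨C0, hC0⟩ : ∃ C0 : k, Δ ^ 2 = algebraMap k L C0 * x ^ a := by
    refine ⟨ε * (D.c ^ (p + 1) * ((-1) ^ (p + 1) * (-D.b1)) ^ (a - 1) *
      ((-1) ^ (p + 1) * (-D.b2))) / ((-1) ^ (p + 1) * (X ^ (p + 1) + D.M).eval 0), ?_⟩
    rw [hε, map_div₀, div_mul_eq_mul_div, eq_div_iff h3, mul_assoc, mul_comm _ (algebraMap k L _),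
      h1]
    obtain ⟨d, rfl⟩ : ∃ d, a = d + 1 := ⟨a - 1, by omega⟩
    simp only [map_mul, map_pow, map_neg, map_one, Nat.add_sub_cancel]
    rw [show ∀ u b : L, u * (0 - x * b) = x * (u * -b) by intros; ring, mul_pow]
    ring
  obtain ⟨s, hs⟩ := IsAlgClosed.exists_pow_nat_eq C0 two_pos
  have h4 : Δ ^ 2 = (algebraMap k L s * tt k L ^ (a * e * a)) ^ 2 := by
    rw [hC0, ← hs, mul_pow, map_pow, hx, ← pow_mul, ← pow_mul, hn]
    congr 2; ring
  have h5 : σ Δ = Δ := by
    rcases sq_eq_sq_iff_eq_or_eq_neg.mp h4 with h | h <;> rw [h] <;> simp [gal_const]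
  have h6 : σ Δ = (Equiv.Perm.sign π : ℤ) * Δ := by
    rw [hΔ, ← Equiv.Perm.prod_Ioi_comp_eq_sign_mul_prod π (f := fun i j => r i - r j)
      (fun i j => by ring)]
    simp only [map_prod, map_sub, hrσ]
  rcases Int.units_eq_one_or (Equiv.Perm.sign π) with h | h
  · exact h
  · exfalso
    rw [h5, h] at h6
    have h7 : (2 : L) * Δ = 0 := by
      simp only [Units.val_neg, Units.val_one, Int.cast_neg, Int.cast_one] at h6
      linear_combination h6
    have h8 : (2 : L) ≠ 0 := by
      have := cast_ne_zero_of_lt (k := k) (p := p) (j := 2) (by omega) (by omega)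
      rw [← map_ofNat (algebraMap k L), _root_.map_ne_zero]
      simpa using this
    exact mul_ne_zero h8 hΔ0 h7

end Pool.Agent.H19Z.IC
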