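import Pool.Agent.H19Z.IC.Data

/-!
The explicit data in characteristic seven.
-/

set_option autoImplicit false

namespace Pool.Agent.H19Z.IC

open Polynomial

variable {k : Type*} [Field k] [CharP k 7]

theorem seven_zero : (7 : k) = 0 := by simpa using CharP.cast_eq_zero k 7

theorem seven_ne {j : ℕ} (h0 : 0 < j) (h : j < 7) : (j : k) ≠ 0 := cast_ne_zero_of_lt h0 h

/-- the data for `p = 7`, `a = 4` -/
noncomputable def data7 (k : Type*) [Field k] [CharP k 7] : Data k 7 4 where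
  M := 3 * X ^ 4 + 3 * X ^ 3 + 2 * X ^ 2 + 6
  b1 := 5
  b2 := 3
  c := 2
  h1 := X ^ 4 + 6 * X ^ 3 + 5 * X ^ 2 + X + 3
  h2 := X ^ 6 + 6 * X ^ 5 + 6 * X ^ 4 + 3 * X ^ 3 + 2 * X ^ 2 + 2 * X + 3
  deg := by
    have : (3 : k) ≠ 0 := by simpa using seven_ne (k := k) (j := 3) (by omega) (by omega)
    compute_degree!
  b1ne := by simpa using seven_ne (k := k) (j := 5) (by omega) (by omega)
  b2ne := by simpa using seven_ne (k := k) (j := 3) (by omega) (by omega)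
  cne := by simpa using seven_ne (k := k) (j := 2) (by omega) (by omega)
  hD := by
    have h7 : (7 : k[X]) = 0 := by simpa using CharP.cast_eq_zero k[X] 7
    simp only [derivative_add, derivative_mul, derivative_ofNat, derivative_X_pow, map_ofNat,
      Nat.cast_ofNat]
    linear_combination ((-108) + 100 * X + (-34) * X ^ 2 + 6 * X ^ 3 + 1 * X ^ 4) * h7
  hN1 := by
    have h7 : (7 : k[X]) = 0 := by simpa using CharP.cast_eq_zero k[X] 7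
    simp only [map_ofNat]
    linear_combination ((-267) + 125 * X + (-439) * X ^ 2 + (-191) * X ^ 3 + 235 * X ^ 4 + (-43) * X ^ 5 + (-5) * X ^ 6 + 2 * X ^ 7) * h7
  hh1 := by
    have : (3 : k) ≠ 0 := by simpa using seven_ne (k := k) (j := 3) (by omega) (by omega)
    intro h; apply this
    simp only [eval_add, eval_mul, eval_pow, eval_X, eval_ofNat] at h
    linear_combination h - 215 * seven_zero (k := k)
  hN2 := by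
    have h7 : (7 : k[X]) = 0 := by simpa using CharP.cast_eq_zero k[X] 7
    simp only [map_ofNat]
    linear_combination ((-3) + (-1) * X ^ 2 + (-2) * X ^ 3 + (-5) * X ^ 4 + (-3) * X ^ 5 + 3 * X ^ 6) * h7
  hh2 := by
    have : (2 : k) ≠ 0 := by simpa using seven_ne (k := k) (j := 2) (by omega) (by omega)
    intro h; apply this
    simp only [eval_add, eval_mul, eval_pow, eval_X, eval_ofNat] at h
    linear_combination h - 397 * seven_zero (k := k)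

theorem data7_map (f : k →+* k) : (data7 k).M.map f = (data7 k).M := by
  simp [data7]

theorem data7_eval (c : k) : (X ^ (7 + 1) + (data7 k).M).eval c - c =
    (c ^ 2 + 3 * c + 5) * (c ^ 6 + 4 * c ^ 5 + 4 * c ^ 4 + 3 * c ^ 3 + 2 * c ^ 2 + 3 * c + 4) := by
  have h7 := seven_zero (k := k)
  simp only [data7, eval_add, eval_mul, eval_pow, eval_X, eval_ofNat]
  linear_combination (-1) * (2 + 4 * c + 3 * c ^ 2 + 3 * c ^ 3 + 4 * c ^ 4 + 5 * c ^ 5 + 3 * c ^ 6 + 1 * c ^ 7) * h7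

theorem frob7 (c : k) (a0 a1 a2 a3 a4 a5 : ℕ) :
    ((a0 : k) + a1 * c + a2 * c ^ 2 + a3 * c ^ 3 + a4 * c ^ 4 + a5 * c ^ 5) ^ 7 =
      a0 + a1 * c ^ 7 + a2 * (c ^ 7) ^ 2 + a3 * (c ^ 7) ^ 3 + a4 * (c ^ 7) ^ 4 +
        a5 * (c ^ 7) ^ 5 := by
  have : Fact (Nat.Prime 7) := ⟨by norm_num⟩
  simp only [← frobenius_def, map_add, map_mul, map_natCast, map_pow (frobenius k 7)]

theorem fix7 {c : k}
    (hg : c ^ 6 + 4 * c ^ 5 + 4 * c ^ 4 + 3 * c ^ 3 + 2 * c ^ 2 + 3 * c + 4 = 0) :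
    c ^ 7 ^ 5 = c := by
  have h7 := seven_zero (k := k)
  have hF := frob7 c
  have s1 : c ^ 7 = (2 + 1 * c + 5 * c ^ 2 + 3 * c ^ 3 + 6 * c ^ 4 + 5 * c ^ 5) := by
    linear_combination (3 + 1 * c) * hg + ((-2) + (-2) * c + (-2) * c ^ 2 + (-2) * c ^ 3 + (-3) * c ^ 4 + (-3) * c ^ 5 + (-1) * c ^ 6) * h7
  have s2 : (c ^ 7) ^ 2 = (2 + 1 * c + 4 * c ^ 2 + 3 * c ^ 3 + 1 * c ^ 4 + 4 * c ^ 5) := by
    linear_combination (c ^ 7) * s1 + (2 + 1 * c + 5 * c ^ 2 + 3 * c ^ 3 + 6 * c ^ 4 + 5 * c ^ 5) * s1 + (4 + 3 * c + 2 * c ^ 3 + 4 * c ^ 4) * hg + ((-2) + (-3) * c + (-1) * c ^ 3 + 1 * c ^ 4 + 2 * c ^ 5 + 7 * c ^ 6 + 9 * c ^ 7 + 6 * c ^ 8 + 6 * c ^ 9 + 3 * c ^ 10) * h7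
  have s3 : (c ^ 7) ^ 3 = (1 + 5 * c + 4 * c ^ 2 + 1 * c ^ 3 + 1 * c ^ 4 + 3 * c ^ 5) := by
    linear_combination (c ^ 7) * s2 + (2 + 1 * c + 4 * c ^ 2 + 3 * c ^ 3 + 1 * c ^ 4 + 4 * c ^ 5) * s1 + (6 + 4 * c + 3 * c ^ 2 + 5 * c ^ 3 + 6 * c ^ 4) * hg + ((-3) + (-5) * c + (-3) * c ^ 2 + (-5) * c ^ 3 + (-6) * c ^ 4 + (-4) * c ^ 5 + (-2) * c ^ 6 + 1 * c ^ 7 + (-2) * c ^ 8 + 2 * c ^ 10) * h7
  have s4 : (c ^ 7) ^ 4 = (1 + 4 * c + 3 * c ^ 2 + 2 * c ^ 3 + 5 * c ^ 4) := by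
    linear_combination (c ^ 7) * s3 + (1 + 5 * c + 4 * c ^ 2 + 1 * c ^ 3 + 1 * c ^ 4 + 3 * c ^ 5) * s1 + (2 + 2 * c + 3 * c ^ 2 + 5 * c ^ 3 + 1 * c ^ 4) * hg + ((-1) + (-1) * c + (-1) * c ^ 2 + (-1) * c ^ 3 + 3 * c ^ 5 + 3 * c ^ 6 + 1 * c ^ 7 + (-1) * c ^ 8 + 2 * c ^ 9 + 2 * c ^ 10) * h7
  have s5 : (c ^ 7) ^ 5 = (4 + 4 * c ^ 2 + 3 * c ^ 3 + 1 * c ^ 4 + 3 * c ^ 5) := by
    linear_combination (c ^ 7) * s4 + (1 + 4 * c + 3 * c ^ 2 + 2 * c ^ 3 + 5 * c ^ 4) * s1 + (3 + 3 * c ^ 2 + 4 * c ^ 3) * hg + ((-2) + (-1) * c ^ 2 + (-1) * c ^ 3 + 2 * c ^ 4 + 3 * c ^ 5 + 6 * c ^ 6 + 2 * c ^ 7 + 3 * c ^ 8 + 3 * c ^ 9) * h7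
  have e1 : c ^ 7 ^ 1 = (2 + 1 * c + 5 * c ^ 2 + 3 * c ^ 3 + 6 * c ^ 4 + 5 * c ^ 5) := by rw [pow_one]; exact s1
  have e2 : c ^ 7 ^ 2 = (1 + 3 * c + 5 * c ^ 2 + 6 * c ^ 3) := by
    have h := hF 2 1 5 3 6 5
    push_cast at h
    rw [show (7 : ℕ) ^ 2 = 7 ^ 1 * 7 from rfl, pow_mul, e1]
    linear_combination h + 1 * s1 + 5 * s2 + 3 * s3 + 6 * s4 + 5 * s5 + (6 + 6 * c + 10 * c ^ 2 + 6 * c ^ 3 + 7 * c ^ 4 + 7 * c ^ 5) * h7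
  have e3 : c ^ 7 ^ 3 = (2 + 3 * c + 3 * c ^ 2 + 2 * c ^ 3 + 1 * c ^ 4 + 4 * c ^ 5) := by
    have h := hF 1 3 5 6 0 0
    push_cast at h
    rw [show (7 : ℕ) ^ 3 = 7 ^ 2 * 7 from rfl, pow_mul, e2]
    linear_combination h + 3 * s1 + 5 * s2 + 6 * s3 + (3 + 5 * c + 8 * c ^ 2 + 4 * c ^ 3 + 4 * c ^ 4 + 7 * c ^ 5) * h7
  have e4 : c ^ 7 ^ 4 = (5 + 6 * c + 5 * c ^ 2 + 6 * c ^ 3 + 4 * c ^ 4 + 3 * c ^ 5) := by
    have h := hF 2 3 3 2 1 4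
    push_cast at h
    rw [show (7 : ℕ) ^ 4 = 7 ^ 3 * 7 from rfl, pow_mul, e3]
    linear_combination h + 3 * s1 + 3 * s2 + 2 * s3 + 1 * s4 + 4 * s5 + (4 + 2 * c + 7 * c ^ 2 + 4 * c ^ 3 + 4 * c ^ 4 + 6 * c ^ 5) * h7
  have e5 : c ^ 7 ^ 5 = (1 * c) := by
    have h := hF 5 6 5 6 4 3
    push_cast at h
    rw [show (7 : ℕ) ^ 5 = 7 ^ 4 * 7 from rfl, pow_mul, e4]
    linear_combination h + 6 * s1 + 5 * s2 + 6 * s3 + 4 * s4 + 3 * s5 + (7 + 8 * c + 14 * c ^ 2 + 8 * c ^ 3 + 10 * c ^ 4 + 11 * c ^ 5) * h7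
  rw [e5, one_mul]

theorem move7 {c : k} (hq : c ^ 2 + 3 * c + 5 = 0) : c ^ 7 ^ 5 ≠ c := by
  have h7 := seven_zero (k := k)
  have hF := frob7 c
  have e1 : c ^ 7 = 4 + 6 * c := by
    linear_combination (2 + 6 * c + 3 * c ^ 2 + 4 * c ^ 3 + 4 * c ^ 4 + 1 * c ^ 5) * hq +
      ((-2) + (-6) * c + (-5) * c ^ 2 + (-5) * c ^ 3 + (-5) * c ^ 4 + (-3) * c ^ 5 +
        (-1) * c ^ 6) * h7
  have e2 : (c ^ 7) ^ 7 = c := by
    have h := hF 4 6 0 0 0 0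
    push_cast at h
    rw [e1]
    linear_combination h + 6 * e1 + (4 + 5 * c) * h7
  have e5 : c ^ 7 ^ 5 = c ^ 7 := by
    rw [show (7 : ℕ) ^ 5 = 7 * 7 * 7 * 7 * 7 from rfl, pow_mul, pow_mul, pow_mul, pow_mul, e2, e2]
  rw [e5, e1]
  intro h
  have h1 : (1 : k) = 0 := by
    have hc : c = 2 := by linear_combination 3 * h - (2 + 2 * c) * h7
    rw [hc] at hq
    linear_combination hq - 2 * h7
  exact one_ne_zero h1

end Pool.Agent.H19Z.IC
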