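import Pool.Agent.H19Z.IC.Geo3
import Pool.Agent.H19Z.IC.Seven

/-!
Swaps in the normaliser of the Galois group, and transitivity.
-/

set_option autoImplicit false
set_option linter.unusedSectionVars false

namespace Pool.Agent.H19Z.IC

open Polynomial

variable {k : Type} [Field k] {p a : ℕ} (D : Data k p a) (n : ℕ)
variable {L : Type} [Field L] [Algebra k L] [Algebra (RatFunc k) L]
  [IsScalarTower k (RatFunc k) L]

theorem tt_transc : Transcendental k (tt k L) :=
  (transcendental_algebraMap_iff (algebraMap (RatFunc k) L).injective).mpr RatFunc.transcendental_X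

theorem moves_none [hp : Fact p.Prime] [CharP k p] [IsSplittingField (RatFunc k) L (D.H n)]
    (ha : 3 ≤ a) (hap : a + 2 ≤ p) {Γ : Type} [LinearOrderedCommGroupWithZero Γ]
    (w : Valuation L Γ) (hw : Triv k w) (ht : 1 < w (tt k L)) (z : (D.H n).rootSet L)
    (hz : w (z : L) < 1) : ∃ σ : L ≃ₐ[RatFunc k] L, σ • z ≠ z := by
  have := IsSplittingField.finiteDimensional L (D.H n)
  have : IsGalois (RatFunc k) L := IsGalois.of_separable_splitting_field (D.H_sep n (by omega))
  have hp0 := hp.out.pos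
  by_contra hcon
  push Not at hcon
  obtain ⟨b, hb⟩ := (IsGalois.mem_range_algebraMap_iff_fixed (F := RatFunc k) (z : L)).mpr
    (fun σ => congrArg Subtype.val (hcon σ))
  have hR := (D.mem_root n (by omega) hp0).mp z.2
  let H0 : k[X][X] := (X ^ (p + 1) + D.M).map (algebraMap k k[X]) - C (X ^ n) * X
  have hH0 : H0.map (algebraMap k[X] (RatFunc k)) = D.H n := by
    simp only [H0, Data.H, Polynomial.map_sub, Polynomial.map_mul, map_C, map_X, map_pow, Polynomial.map_pow,
      RatFunc.algebraMap_X, Polynomial.map_map, ← IsScalarTower.algebraMap_eq]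
  have hmon : H0.Monic := monic_of_injective (RatFunc.algebraMap_injective k)
    (by rw [hH0]; exact (D.H_monic_deg n (by omega) hp0).1)
  have hint : IsIntegral k[X] b := by
    refine ⟨H0, hmon, ?_⟩
    rw [← eval_map, hH0]
    apply (algebraMap (RatFunc k) L).injective
    rw [← coe_aeval_eq_eval, ← aeval_algebraMap_apply, hb, map_zero]
    exact aeval_eq_zero_of_mem_rootSet z.2
  obtain ⟨Q, hQ⟩ := IsIntegrallyClosed.isIntegral_iff.mp hint
  have hzQ : (z : L) = aeval (tt k L) Q := by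
    rw [← hb, ← hQ, ← aeval_X_ratFunc, aeval_algebraMap_apply]
  have hQ0 : Q ≠ 0 := by rintro rfl; exact hR.ne_zero (by simpa using hzQ)
  rw [hzQ, aeval_reverse tt_ne, map_mul, map_pow,
    aeval_eq_one hw (c := 0) (by simpa using (w.one_lt_val_iff tt_ne).mp ht)
      (by rw [← coeff_zero_eq_eval_zero, coeff_zero_reverse]; exact leadingCoeff_ne_zero.mpr hQ0),
    mul_one] at hz
  exact absurd hz (not_lt.mpr (one_le_pow₀ ht.le))

theorem root_map (hap : a ≤ p) (hp : 0 < p) (Ψ : L ≃+* L) (φ : RatFunc k ≃+* RatFunc k)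
    (hΨ : ∀ b, Ψ (algebraMap (RatFunc k) L b) = algebraMap (RatFunc k) L (φ b))
    (hH : (D.H n).map (φ : RatFunc k →+* RatFunc k) = D.H n) {z : L}
    (hz : z ∈ (D.H n).rootSet L) : Ψ z ∈ (D.H n).rootSet L := by
  have hne := (D.H_monic_deg n hap hp).1.ne_zero
  rw [mem_rootSet_of_ne hne] at hz ⊢
  have hcomp : (Ψ : L →+* L).comp (algebraMap (RatFunc k) L) =
      (algebraMap (RatFunc k) L).comp (φ : RatFunc k →+* RatFunc k) := RingHom.ext hΨ
  have := congrArg (Ψ : L →+* L) hz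
  rw [aeval_def, hom_eval₂, hcomp, ← eval₂_map, hH, map_zero] at this
  rw [aeval_def]; exact this

theorem swap_norm (hap : a ≤ p) (hp : 0 < p) {ι : Type} [Fintype ι] [DecidableEq ι]
    (E : (D.H n).rootSet L ≃ ι) (Ψ : L ≃+* L) (φ : RatFunc k ≃+* RatFunc k)
    (hΨ : ∀ b, Ψ (algebraMap (RatFunc k) L b) = algebraMap (RatFunc k) L (φ b))
    (hH : (D.H n).map (φ : RatFunc k →+* RatFunc k) = D.H n)
    (h1 : ∃ z ∈ (D.H n).rootSet L, Ψ z ≠ z)
    (h2 : ∀ z1 ∈ (D.H n).rootSet L, ∀ z2 ∈ (D.H n).rootSet L, ∀ z3 ∈ (D.H n).rootSet L,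
      Ψ z1 ≠ z1 → Ψ z2 ≠ z2 → Ψ z3 ≠ z3 → z1 = z2 ∨ z1 = z3 ∨ z2 = z3) :
    ∃ ρ : Equiv.Perm ι, ρ.IsSwap ∧
      ρ ∈ Subgroup.normalizer ((theta D n E).range : Set (Equiv.Perm ι)) := by
  classical
  let f : (D.H n).rootSet L → (D.H n).rootSet L :=
    fun z => ⟨Ψ z, root_map D n hap hp Ψ φ hΨ hH z.2⟩
  have hf : Function.Injective f := fun z z' h =>
    Subtype.ext (Ψ.injective (congrArg Subtype.val h))
  let ρ : Equiv.Perm ι := E.permCongr (Equiv.ofBijective f (Finite.injective_iff_bijective.mp hf))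
  have hρ : ∀ z, ρ (E z) = E (f z) := fun z => by simp [ρ]
  have hmem : ∀ z, E z ∈ ρ.support ↔ Ψ z ≠ z := by
    intro z
    rw [Equiv.Perm.mem_support, hρ, E.injective.ne_iff, ne_eq, Subtype.ext_iff]
  refine ⟨ρ, ?_, Subgroup.mem_normalizer_fintype ?_⟩
  · rw [← Equiv.Perm.card_support_eq_two]
    have c1 : ρ.support.card ≠ 0 := by
      obtain ⟨z, hz, hz'⟩ := h1
      exact Finset.card_ne_zero_of_mem ((hmem ⟨z, hz⟩).mpr hz')
    have c2 := ρ.card_support_ne_one
    have c3 : ¬ 2 < ρ.support.card := by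
      rw [Finset.two_lt_card_iff]
      rintro ⟨x1, x2, x3, m1, m2, m3, n12, n13, n23⟩
      obtain ⟨z1, rfl⟩ := E.surjective x1
      obtain ⟨z2, rfl⟩ := E.surjective x2
      obtain ⟨z3, rfl⟩ := E.surjective x3
      rcases h2 _ z1.2 _ z2.2 _ z3.2 ((hmem _).mp m1) ((hmem _).mp m2) ((hmem _).mp m3)
        with h | h | h
      · exact n12 (congrArg E (Subtype.ext h))
      · exact n13 (congrArg E (Subtype.ext h))
      · exact n23 (congrArg E (Subtype.ext h))
    omega
  · rintro _ ⟨σ, rfl⟩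
    let σ' : L ≃ₐ[RatFunc k] L := AlgEquiv.ofRingEquiv
      (f := (Ψ.symm.trans σ.toRingEquiv).trans Ψ) (by
        intro b
        have : Ψ.symm (algebraMap (RatFunc k) L b) = algebraMap (RatFunc k) L (φ.symm b) := by
          rw [RingEquiv.symm_apply_eq, hΨ, RingEquiv.apply_symm_apply]
        simp [this, hΨ])
    refine ⟨σ', ?_⟩
    rw [eq_mul_inv_iff_mul_eq]
    ext1 o
    obtain ⟨z, rfl⟩ := E.surjective o
    rw [Equiv.Perm.mul_apply, Equiv.Perm.mul_apply, hρ, theta_apply, theta_apply, hρ]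
    congr 1
    apply Subtype.ext
    simp [f, σ']

theorem exists_Psi [IsAlgClosed k] [CharP k p] [IsSplittingField (RatFunc k) L (D.H n)]
    (ha : a ≠ 0) (hap : a ≤ p) (hp : 0 < p) (φ : RatFunc k ≃+* RatFunc k) (φk : k →+* k)
    (hφ : ∀ c, φ (algebraMap k (RatFunc k) c) = algebraMap k (RatFunc k) (φk c))
    (hH : (D.H n).map (φ : RatFunc k →+* RatFunc k) = D.H n) (c0 η : k)
    (hπ : φ (RatFunc.X - algebraMap k (RatFunc k) c0) =
      algebraMap k (RatFunc k) η * (RatFunc.X - algebraMap k (RatFunc k) c0)) :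
    ∃ (A : ValuationSubring L) (Ψ : L ≃+* L), Triv k A.valuation ∧
      A.valuation (tt k L - algebraMap k L c0) < 1 ∧
      (∀ b, Ψ (algebraMap (RatFunc k) L b) = algebraMap (RatFunc k) L (φ b)) ∧
      (∀ y, A.valuation y ≤ 1 → ∃ c, A.valuation (y - algebraMap k L c) < 1) ∧
      ∀ y c, A.valuation (y - algebraMap k L c) < 1 →
        A.valuation (Ψ y - algebraMap k L (φk c)) < 1 := by
  have := IsSplittingField.finiteDimensional L (D.H n)
  have : IsGalois (RatFunc k) L := IsGalois.of_separable_splitting_field (D.H_sep n ha)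
  obtain ⟨Φ, hΦ⟩ := exists_extend (L := L) (D.H n) (D.H_monic_deg n hap hp).1.ne_zero φ hH
  have htr : Transcendental k (tt k L - algebraMap k L c0) := by
    intro h
    apply tt_transc (k := k) (L := L)
    have := h.add (isAlgebraic_algebraMap (A := L) c0)
    rwa [sub_add_cancel] at this
  obtain ⟨A, hA, hA1⟩ := exists_val htr
  have hΦk : ∀ c, Φ (algebraMap k L c) = algebraMap k L (φk c) := by
    intro c
    rw [IsScalarTower.algebraMap_apply k (RatFunc k) L, hΦ, hφ, ← IsScalarTower.algebraMap_apply]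
  have e1 : algebraMap (RatFunc k) L (RatFunc.X - algebraMap k (RatFunc k) c0) =
      tt k L - algebraMap k L c0 := by rw [map_sub, ← IsScalarTower.algebraMap_apply]
  have hπ0 : (RatFunc.X - algebraMap k (RatFunc k) c0) ≠ 0 := by
    intro h
    rw [h, map_zero] at e1
    rw [← e1] at htr
    exact htr isAlgebraic_zero
  have hA' : Triv k (A.valuation.comap (Φ : L →+* L)) := by
    intro c hc
    rw [Valuation.comap_apply, RingHom.coe_coe, hΦk]
    exact hA _ (by simpa using hc)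
  obtain ⟨σ, hσ⟩ := conj (K := RatFunc k) hA' hA
    ((fac_fin c0).unit_iff hπ0 hA' hA (by
      rw [Valuation.comap_apply, RingHom.coe_coe, hΦ, hπ, map_mul, map_mul, e1,
        ← IsScalarTower.algebraMap_apply, mul_comm]
      exact mul_lt_one_of_lt_of_le hA1 (hA.le η)) (by rw [e1]; exact hA1))
  refine ⟨A, σ.toRingEquiv.trans Φ, hA, hA1, fun b => by simp [hΦ], fun y hy => ?_,
    fun y c hy => ?_⟩
  · exact exists_res (K := RatFunc k) hA ((fac_fin c0).res hπ0 hA (by rw [e1]; exact hA1)) hy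
  · have := hσ _ hy
    rw [Valuation.comap_apply, RingHom.coe_coe, map_sub, gal_const, map_sub, hΦk] at this
    exact this

theorem H_map (φ : RatFunc k ≃+* RatFunc k) (φk : k →+* k)
    (hφ : ∀ c, φ (algebraMap k (RatFunc k) c) = algebraMap k (RatFunc k) (φk c))
    (hM : D.M.map φk = D.M) (hX : φ RatFunc.X ^ n = RatFunc.X ^ n) :
    (D.H n).map (φ : RatFunc k →+* RatFunc k) = D.H n := by
  have hcomp : (φ : RatFunc k →+* RatFunc k).comp (algebraMap k (RatFunc k)) =
      (algebraMap k (RatFunc k)).comp φk := RingHom.ext hφ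
  rw [Data.H, Polynomial.map_sub, Polynomial.map_map, hcomp, ← Polynomial.map_map,
    Polynomial.map_add φk, hM, Polynomial.map_mul, map_C, map_X, map_pow, RingHom.coe_coe, hX,
    Polynomial.map_pow φk, map_X]

theorem swap_odd [IsAlgClosed k] [hp : Fact p.Prime] [CharP k p]
    [IsSplittingField (RatFunc k) L (D.H n)] {e : ℕ} (he : 0 < e)
    (hn : n = 2 * a * e) (ha : 3 ≤ a) (hap : a + 2 ≤ p) (hodd : Odd a)
    {ι : Type} [Fintype ι] [DecidableEq ι] (E : (D.H n).rootSet L ≃ ι) :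
    ∃ ρ : Equiv.Perm ι, ρ.IsSwap ∧
      ρ ∈ Subgroup.normalizer ((theta D n E).range : Set (Equiv.Perm ι)) := by
  have hp0 := hp.out.pos
  obtain ⟨η, hη⟩ := IsAlgClosed.exists_pow_nat_eq (-1 : k) he
  have hη0 : η ≠ 0 := by rintro rfl; rw [zero_pow he.ne'] at hη; simp at hη
  let : Invertible η := invertibleOfNonzero hη0
  let φ : RatFunc k ≃+* RatFunc k :=
    IsFractionRing.ringEquivOfRingEquiv (algEquivCMulXAddC η 0).toRingEquiv
  have hφP : ∀ Q : k[X], φ (algebraMap k[X] (RatFunc k) Q) =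
      algebraMap k[X] (RatFunc k) (algEquivCMulXAddC η 0 Q) := fun Q =>
    IsFractionRing.ringEquivOfRingEquiv_algebraMap _ Q
  have hφ : ∀ c, φ (algebraMap k (RatFunc k) c) = algebraMap k (RatFunc k) (RingHom.id k c) := by
    intro c
    rw [IsScalarTower.algebraMap_apply k k[X] (RatFunc k), hφP, AlgEquiv.commutes,
      ← IsScalarTower.algebraMap_apply, RingHom.id_apply]
  have hφX : φ RatFunc.X = algebraMap k (RatFunc k) η * RatFunc.X := by
    rw [← RatFunc.algebraMap_X, hφP]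
    simp
  have hH : (D.H n).map (φ : RatFunc k →+* RatFunc k) = D.H n := by
    refine H_map D n φ (RingHom.id k) hφ (by simp) ?_
    rw [hφX, mul_pow, ← map_pow, hn, mul_comm _ e, pow_mul η, hη, pow_mul]
    simp
  obtain ⟨A, Ψ, hw, ht, hΨ, hres, hΨw⟩ := exists_Psi (L := L) D n (by omega) (by omega) hp0 φ
    (RingHom.id k) hφ hH 0 η (by simpa using hφX)
  set w := A.valuation
  rw [map_zero, sub_zero] at ht
  have hΨk : ∀ c, Ψ (algebraMap k L c) = algebraMap k L c := by
    intro c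
    rw [IsScalarTower.algebraMap_apply k (RatFunc k) L, hΨ, hφ, RingHom.id_apply]
  have hΨt : Ψ (tt k L) = algebraMap k L η * tt k L := by
    rw [hΨ, hφX, map_mul, ← IsScalarTower.algebraMap_apply]
  have hin : ∀ y, w y ≤ 1 → w (Ψ y - y) < 1 := by
    intro y hy
    obtain ⟨c, hc⟩ := hres y hy
    have := w.map_sub_lt (hΨw y c hc) hc
    rwa [RingHom.id_apply, sub_sub_sub_cancel_right] at this
  have hn0 : n ≠ 0 := by rw [hn]; positivity
  have hx : w (tt k L ^ n) < 1 := by rw [map_pow]; exact pow_lt_one₀ zero_le ht hn0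
  have e1 : tt k L ^ n = (tt k L ^ (2 * e)) ^ a := by rw [← pow_mul, hn]; congr 1; ring
  have e2 : tt k L ^ n = (tt k L ^ (a * e)) ^ 2 := by rw [← pow_mul, hn]; congr 1; ring
  have hs1 : Ψ (tt k L ^ (2 * e)) = tt k L ^ (2 * e) := by
    rw [map_pow, hΨt, mul_pow, ← map_pow, mul_comm 2 e, pow_mul η, hη]; simp
  have hs2 : Ψ (tt k L ^ (a * e)) = -tt k L ^ (a * e) := by
    rw [map_pow, hΨt, mul_pow, ← map_pow, mul_comm a e, pow_mul η, hη, hodd.neg_one_pow]; simp
  have h2k : ((2 : ℕ) : k) ≠ 0 := cast_ne_zero_of_lt (p := p) (by omega) (by omega)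
  have hs0 : tt k L ^ (a * e) ≠ 0 := pow_ne_zero _ tt_ne
  refine swap_norm D n (by omega) hp0 E Ψ φ hΨ hH ?_ ?_
  · obtain ⟨z, hz, hz'⟩ := D.exists_root_near n w (by omega) hp0 (y := algebraMap k L D.b2) (by
      rw [D.aeval_H, D.aeval_N_b two_ne_zero D.hN2, zero_sub, w.map_neg, map_mul]
      exact mul_lt_one_of_lt_of_le hx (hw.le _))
    refine ⟨z, hz, fun h => ?_⟩
    rw [D.mem_root n (by omega) hp0, e2] at hz
    have h1 := hz.near_val hw D.b2ne two_ne_zero D.hN2 D.hh2 hs0 hz'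
    have h2 := hin _ h1.le
    rw [map_div₀, map_sub Ψ, h, hΨk, hs2, div_neg, ← neg_add', ← two_mul, w.map_neg, map_mul,
      h1, mul_one] at h2
    have h3 := hw 2 (by simpa using h2k)
    rw [map_ofNat] at h3
    exact h2.ne h3
  · have key : ∀ z ∈ (D.H n).rootSet L, Ψ z ≠ z → w (z - algebraMap k L D.b2) < 1 := by
      intro z hz hne
      by_contra h2
      have hz' := root_map D n (by omega) hp0 Ψ φ hΨ hH hz
      rw [D.mem_root n (by omega) hp0] at hz hz'
      apply hne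
      by_cases h1 : w (z - algebraMap k L D.b1) < 1
      · rw [e1] at hz hz'
        exact hz.fix_near hw D.b1ne (cast_ne_zero_of_lt (p := p) (by omega) (by omega)) D.hN1
          D.hh1 (pow_ne_zero _ tt_ne) h1 (Ψ : L →+* L) hin (hΨk _) hs1 hz'
      have h3 := hz.val_one hw (by omega) hp0 hx.le
      exact hz.sepU hw hz' h3 (not_lt.mp h1) (not_lt.mp h2) (hin z h3.le)
    have key2 : ∀ z ∈ (D.H n).rootSet L, Ψ z ≠ z → ∃ c : k,
        w ((z - algebraMap k L D.b2) / tt k L ^ (a * e) - algebraMap k L c) < 1 ∧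
        c ^ 2 = D.b2 * (D.h2.eval D.b2)⁻¹ := by
      intro z hz hne
      have h1 := key z hz hne
      rw [D.mem_root n (by omega) hp0, e2] at hz
      obtain ⟨c, hc⟩ := hres _ (hz.near_val hw D.b2ne two_ne_zero D.hN2 D.hh2 hs0 h1).le
      exact ⟨c, hc, hw.res_unique (res_pow hw hc 2) (hz.near hw D.hN2 D.hh2 hs0 h1)⟩
    have key3 : ∀ z ∈ (D.H n).rootSet L, ∀ z' ∈ (D.H n).rootSet L, Ψ z ≠ z → ∀ c : k,
        w ((z - algebraMap k L D.b2) / tt k L ^ (a * e) - algebraMap k L c) < 1 →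
        w ((z' - algebraMap k L D.b2) / tt k L ^ (a * e) - algebraMap k L c) < 1 → z' = z := by
      intro z hz z' hz' hne c h1 h2
      have h3 := key z hz hne
      rw [D.mem_root n (by omega) hp0, e2] at hz hz'
      have h4 := hz.near_val hw D.b2ne two_ne_zero D.hN2 D.hh2 hs0 h3
      refine hz.sepN hw D.b2ne h2k D.hN2 D.hh2 hz' h3 ?_
      have h5 := w.map_sub_lt h2 h1
      have hws : 0 < w (tt k L ^ (a * e)) := w.pos_iff.mpr hs0
      rw [sub_sub_sub_cancel_right, ← sub_div, sub_sub_sub_cancel_right, map_div₀,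
        div_lt_one₀ hws] at h5
      rw [map_div₀, div_eq_one_iff_eq hws.ne'] at h4
      rwa [h4]
    intro z1 m1 z2 m2 z3 m3 n1 n2 n3
    obtain ⟨c1, r1, q1⟩ := key2 z1 m1 n1
    obtain ⟨c2, r2, q2⟩ := key2 z2 m2 n2
    obtain ⟨c3, r3, q3⟩ := key2 z3 m3 n3
    rcases sq_eq_sq_iff_eq_or_eq_neg.mp (q2.trans q1.symm) with h | h
    · exact Or.inl (key3 z2 m2 z1 m1 n2 c1 (h ▸ r2) r1)
    rcases sq_eq_sq_iff_eq_or_eq_neg.mp (q3.trans q1.symm) with h' | h'
    · exact Or.inr (Or.inl (key3 z3 m3 z1 m1 n3 c1 (h' ▸ r3) r1))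
    · exact Or.inr (Or.inr (key3 z3 m3 z2 m2 n3 c2 (by rw [h, ← h']; exact r3) r2))

theorem swap_seven [IsAlgClosed k] [CharP k 7]
    [IsSplittingField (RatFunc k) L ((data7 k).H n)]
    {ι : Type} [Fintype ι] [DecidableEq ι] (E : ((data7 k).H n).rootSet L ≃ ι) :
    ∃ ρ : Equiv.Perm ι, ρ.IsSwap ∧
      ρ ∈ Subgroup.normalizer ((theta (data7 k) n E).range : Set (Equiv.Perm ι)) := by
  have : Fact (Nat.Prime 7) := ⟨by norm_num⟩
  let D := data7 k
  let f : k ≃+* k := iterateFrobeniusEquiv k 7 5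
  let φ : RatFunc k ≃+* RatFunc k := IsFractionRing.ringEquivOfRingEquiv (mapEquiv f)
  have hφP : ∀ Q : k[X], φ (algebraMap k[X] (RatFunc k) Q) =
      algebraMap k[X] (RatFunc k) (mapEquiv f Q) := fun Q =>
    IsFractionRing.ringEquivOfRingEquiv_algebraMap _ Q
  have hφ : ∀ c, φ (algebraMap k (RatFunc k) c) =
      algebraMap k (RatFunc k) ((f : k →+* k) c) := by
    intro c
    rw [IsScalarTower.algebraMap_apply k k[X] (RatFunc k), hφP,
      IsScalarTower.algebraMap_apply k k[X] (RatFunc k)]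
    simp
  have hφX : φ RatFunc.X = RatFunc.X := by
    rw [← RatFunc.algebraMap_X, hφP]
    simp
  have hH : (D.H n).map (φ : RatFunc k →+* RatFunc k) = D.H n :=
    H_map D n φ (f : k →+* k) hφ (data7_map _) (by rw [hφX])
  obtain ⟨A, Ψ, hw, ht, hΨ, hres, hΨw⟩ := exists_Psi (L := L) D n (by omega) (by omega)
    (by omega) φ (f : k →+* k) hφ hH 1 1 (by simp [hφX])
  set w := A.valuation
  have hf : ∀ c : k, (f : k →+* k) c = c ^ 7 ^ 5 := fun c => rfl
  have hx1 : w (tt k L ^ n - algebraMap k L 1) < 1 := by simpa using res_pow hw ht n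
  have hx : w (tt k L ^ n) = 1 := eq_one_of_res hw one_ne_zero hx1
  have hev : ∀ z ∈ (D.H n).rootSet L, ∀ c : k, w (z - algebraMap k L c) < 1 →
      (X ^ (7 + 1) + D.M).eval c = c := by
    intro z hz c hc
    rw [D.mem_root n (by omega) (by omega)] at hz
    have h1 := aeval_res hw hc (X ^ (7 + 1) + D.M)
    rw [hz] at h1
    have h2 := res_mul hw hx1 hc
    rw [one_mul] at h2
    exact hw.res_unique h1 h2
  have hsep : ∀ z ∈ (D.H n).rootSet L, ∀ z' ∈ (D.H n).rootSet L, w (z' - z) < 1 → z' = z := by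
    intro z hz z' hz' hd
    have b1 : 1 ≤ w (z - algebraMap k L D.b1) := by
      by_contra h
      have := hev z hz _ (not_le.mp h)
      rw [D.hN1] at this
      exact D.b1ne (by simpa using this.symm)
    have b2 : 1 ≤ w (z - algebraMap k L D.b2) := by
      by_contra h
      have := hev z hz _ (not_le.mp h)
      rw [D.hN2] at this
      exact D.b2ne (by simpa using this.symm)
    rw [D.mem_root n (by omega) (by omega)] at hz hz'
    exact hz.sepU hw hz' (hz.val_one hw (by omega) (by omega) hx.le) b1 b2 hd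
  refine swap_norm D n (by omega) (by omega) E Ψ φ hΨ hH ?_ ?_
  · obtain ⟨c, hc⟩ := IsAlgClosed.exists_root (X ^ 2 + 3 * X + 5 : k[X]) (by
      have : (X ^ 2 + 3 * X + 5 : k[X]).degree = 2 := by compute_degree!
      rw [this]; decide)
    have hc' : c ^ 2 + 3 * c + 5 = 0 := by simpa using hc
    have h1 := data7_eval c
    rw [hc', zero_mul, sub_eq_zero] at h1
    obtain ⟨z, hz, hz'⟩ := D.exists_root_near n w (by omega) (by omega)
      (y := algebraMap k L c) (by
        rw [D.aeval_H, aeval_algebraMap_apply, coe_aeval_eq_eval, h1, w.map_sub_swap]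
        simpa using res_mul hw hx1 (y' := algebraMap k L c) (c' := c) (by simp))
    refine ⟨z, hz, fun h => ?_⟩
    have h2 := hΨw z c hz'
    rw [h, hf] at h2
    exact move7 hc' (hw.res_unique h2 hz')
  · have key : ∀ z ∈ (D.H n).rootSet L, Ψ z ≠ z → ∃ c : k,
        w (z - algebraMap k L c) < 1 ∧ c ^ 2 + 3 * c + 5 = 0 := by
      intro z hz hne
      have hz0 := (D.mem_root n (by omega) (by omega)).mp hz
      obtain ⟨c, hc⟩ := hres z (hz0.val_one hw (by omega) (by omega) hx.le).le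
      refine ⟨c, hc, ?_⟩
      have h1 := data7_eval c
      rw [hev z hz c hc, sub_self] at h1
      refine (mul_eq_zero.mp h1.symm).resolve_right fun hg => hne ?_
      have h2 := hΨw z c hc
      rw [hf, fix7 hg] at h2
      have h3 := w.map_sub_lt h2 hc
      rw [sub_sub_sub_cancel_right] at h3
      exact hsep z hz _ (root_map D n (by omega) (by omega) Ψ φ hΨ hH hz) h3
    have key3 : ∀ z ∈ (D.H n).rootSet L, ∀ z' ∈ (D.H n).rootSet L, ∀ c : k,
        w (z - algebraMap k L c) < 1 → w (z' - algebraMap k L c) < 1 → z' = z := by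
      intro z hz z' hz' c h1 h2
      have h3 := w.map_sub_lt h2 h1
      rw [sub_sub_sub_cancel_right] at h3
      exact hsep z hz z' hz' h3
    intro z1 m1 z2 m2 z3 m3 n1 n2 n3
    obtain ⟨c1, r1, q1⟩ := key z1 m1 n1
    obtain ⟨c2, r2, q2⟩ := key z2 m2 n2
    obtain ⟨c3, r3, q3⟩ := key z3 m3 n3
    by_cases h : c2 = c1
    · exact Or.inl (key3 z2 m2 z1 m1 c1 (h ▸ r2) r1)
    by_cases h' : c3 = c1
    · exact Or.inr (Or.inl (key3 z3 m3 z1 m1 c1 (h' ▸ r3) r1))
    have a2 : c2 + c1 + 3 = 0 := by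
      apply mul_left_cancel₀ (sub_ne_zero.mpr h); linear_combination q2 - q1
    have a3 : c3 + c1 + 3 = 0 := by
      apply mul_left_cancel₀ (sub_ne_zero.mpr h'); linear_combination q3 - q1
    have : c3 = c2 := by linear_combination a3 - a2
    exact Or.inr (Or.inr (key3 z3 m3 z2 m2 c2 (this ▸ r3) r2))

end Pool.Agent.H19Z.IC
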