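import Pool.Agent.H19Z.IC.Geo4

/-!
Assembly: every admissible subgroup is an inertia group.
-/

set_option autoImplicit false

namespace Pool.Agent.H19Z.IC

open Polynomial

theorem assemble {k : Type} [Field k] [IsAlgClosed k] {p a : ℕ} [hp : Fact p.Prime] [CharP k p]
    (D : Data k p a) (h5 : 5 ≤ p) (ha : 3 ≤ a) (hap : a + 2 ≤ p)
    (hcop : Nat.Coprime (a * (a - 2)) ((p - 1) / 2))
    (hswap : ∀ e : ℕ, 0 < e → ∀ E : (D.H (2 * a * e)).rootSet (D.H (2 * a * e)).SplittingField ≃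
      Option (ZMod p), ∃ ρ : Equiv.Perm (Option (ZMod p)), ρ.IsSwap ∧
      ρ ∈ Subgroup.normalizer ((theta D (2 * a * e) E).range :
        Set (Equiv.Perm (Option (ZMod p)))))
    (I : Subgroup (alternatingGroup (Fin (p + 1))))
    (hI : ∃ P : Subgroup (alternatingGroup (Fin (p + 1))), ∃ g ∈ I,
      P ≤ I ∧ Nat.card P = p ∧ (∀ x ∈ I, ∀ y ∈ P, x * y * x⁻¹ ∈ P) ∧
      ∀ x ∈ I, ∃ n : ℤ, ∃ y ∈ P, x = g ^ n * y) :
    ∃ (L : Type) (_ : Field L) (_ : Algebra (RatFunc k) L),
      FiniteDimensional (RatFunc k) L ∧ IsGalois (RatFunc k) L ∧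
      ∃ φ : (L ≃ₐ[RatFunc k] L) ≃* alternatingGroup (Fin (p + 1)),
        (∀ (Γ : Type) (_ : LinearOrderedCommGroupWithZero Γ) (w : Valuation L Γ),
          (∀ c : k, c ≠ 0 →
            w (algebraMap (RatFunc k) L (algebraMap k (RatFunc k) c)) = 1) →
          w (algebraMap (RatFunc k) L RatFunc.X) ≤ 1 →
          ∀ σ : L ≃ₐ[RatFunc k] L, (∀ a : L, w a ≤ 1 → w (σ a - a) < 1) → σ = 1) ∧
        ∃ (Γ : Type) (_ : LinearOrderedCommGroupWithZero Γ) (w : Valuation L Γ),
          (∀ c : k, c ≠ 0 →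
            w (algebraMap (RatFunc k) L (algebraMap k (RatFunc k) c)) = 1) ∧
          1 < w (algebraMap (RatFunc k) L RatFunc.X) ∧
          ∀ σ : L ≃ₐ[RatFunc k] L,
            (φ σ ∈ I ↔ ∀ a : L, w a ≤ 1 → w (σ a - a) < 1) := by
  classical
  obtain ⟨e0, m, hm, ⟨e, he⟩, hcl⟩ := classify h5 I hI
  have hodd : p % 2 = 1 := hp.out.eq_two_or_odd.resolve_left (by omega)
  have hme : p - 1 = 2 * e * m := by
    rw [mul_assoc, mul_comm e m, ← he]; omega
  have he0 : 0 < e := Nat.pos_of_ne_zero (by rintro rfl; simp at hme; omega)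
  set n := 2 * a * e with hn
  let L := (D.H n).SplittingField
  have hfd : FiniteDimensional (RatFunc k) L := IsSplittingField.finiteDimensional L (D.H n)
  have hgal : IsGalois (RatFunc k) L :=
    IsGalois.of_separable_splitting_field (D.H_sep n (by omega))
  obtain ⟨A, hw, hA⟩ := exists_val (k := k) (u := (tt k L)⁻¹)
    (fun h => tt_transc (IsAlgebraic.inv_iff.mp h))
  have ht : 1 < A.valuation (tt k L) := (A.valuation.one_lt_val_iff tt_ne).mpr hA
  obtain ⟨E, hE1, hE2, hE3⟩ := inf_main D n hm hme hn ha hap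
    (Nat.Coprime.coprime_dvd_right ⟨e, he⟩ hcop) A.valuation hw ht
  have hinj := theta_inj D n E
  have hmap : (inertia (RatFunc k) A.valuation).map (theta D n E) = Aff p m hm := by
    apply Subgroup.eq_of_le_of_card_ge
    · rintro _ ⟨σ, hσ, rfl⟩; exact hE1 σ hσ
    · rw [Subgroup.card_map_of_injective hinj]
      exact (card_Aff_le m hm).trans (Nat.le_of_dvd Nat.card_pos hE2)
  have hrange : (theta D n E).range = alternatingGroup (Option (ZMod p)) := by
    apply le_antisymm
    · rintro _ ⟨σ, rfl⟩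
      exact Equiv.Perm.mem_alternatingGroup.mpr (sign_theta D n hn ha hap E σ)
    · obtain ⟨ρ, hρ, hρ'⟩ := hswap e he0 E
      refine alt_le h5 _ (fun β => ?_) ?_ ρ hρ hρ'
      · have := tr_mem m hm β
        rw [← hmap] at this
        exact Subgroup.map_le_range _ _ this
      · obtain ⟨σ, hσ⟩ := moves_none D n ha hap A.valuation hw ht (E.symm none) hE3
        refine ⟨theta D n E σ, ⟨σ, rfl⟩, fun h => hσ ?_⟩
        have := theta_apply D n E σ (E.symm none)
        rw [Equiv.apply_symm_apply, h] at this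
        rw [eq_comm, Equiv.symm_apply_eq]; exact this
  let θ : (L ≃ₐ[RatFunc k] L) →* Equiv.Perm (Fin (p + 1)) :=
    e0.symm.permCongrHom.toMonoidHom.comp (theta D n E)
  have hθ : ∀ σ, e0.permCongrHom (θ σ) = theta D n E σ := by
    intro σ
    simp only [θ, MonoidHom.comp_apply, MulEquiv.coe_toMonoidHom, ← Equiv.permCongrHom_symm,
      MulEquiv.apply_symm_apply]
  have hθinj : Function.Injective θ := e0.symm.permCongrHom.injective.comp hinj
  have hθr : θ.range = alternatingGroup (Fin (p + 1)) := by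
    ext x
    constructor
    · rintro ⟨σ, rfl⟩
      rw [Equiv.Perm.mem_alternatingGroup, ← Equiv.Perm.sign_permCongr e0,
        ← Equiv.permCongrHom_coe, hθ]
      exact sign_theta D n hn ha hap E σ
    · intro hx
      have : e0.permCongrHom x ∈ (theta D n E).range := by
        rw [hrange, Equiv.Perm.mem_alternatingGroup, Equiv.permCongrHom_coe,
          Equiv.Perm.sign_permCongr]
        exact Equiv.Perm.mem_alternatingGroup.mp hx
      obtain ⟨σ, hσ⟩ := this
      exact ⟨σ, e0.permCongrHom.injective (by rw [hθ, hσ])⟩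
  refine ⟨L, inferInstance, inferInstance, hfd, hgal,
    (MonoidHom.ofInjective hθinj).trans (MulEquiv.subgroupCongr hθr), ?_, A.ValueGroup,
    inferInstance, A.valuation, ?_, ht, fun σ => ?_⟩
  · intro Γ _ w h1 h2 σ hσ
    exact unram D n hn ha hap w
      (fun c hc => by rw [IsScalarTower.algebraMap_apply k (RatFunc k) L]; exact h1 c hc) h2 σ hσ
  · intro c hc
    rw [← IsScalarTower.algebraMap_apply]; exact hw c hc
  · rw [hcl, ← hmap]
    change e0.permCongrHom (θ σ) ∈ _ ↔ _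
    rw [hθ, Subgroup.mem_map_iff_mem hinj, mem_inertia]

theorem main (p : ℕ) (hp : p.Prime) (h5 : 5 ≤ p) (k : Type) [Field k] [IsAlgClosed k] [CharP k p]
    (I : Subgroup (alternatingGroup (Fin (p + 1))))
    (hI : ∃ P : Subgroup (alternatingGroup (Fin (p + 1))), ∃ g ∈ I,
      P ≤ I ∧ Nat.card P = p ∧ (∀ x ∈ I, ∀ y ∈ P, x * y * x⁻¹ ∈ P) ∧
      ∀ x ∈ I, ∃ n : ℤ, ∃ y ∈ P, x = g ^ n * y) :
    ∃ (L : Type) (_ : Field L) (_ : Algebra (RatFunc k) L),
      FiniteDimensional (RatFunc k) L ∧ IsGalois (RatFunc k) L ∧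
      ∃ φ : (L ≃ₐ[RatFunc k] L) ≃* alternatingGroup (Fin (p + 1)),
        (∀ (Γ : Type) (_ : LinearOrderedCommGroupWithZero Γ) (w : Valuation L Γ),
          (∀ c : k, c ≠ 0 →
            w (algebraMap (RatFunc k) L (algebraMap k (RatFunc k) c)) = 1) →
          w (algebraMap (RatFunc k) L RatFunc.X) ≤ 1 →
          ∀ σ : L ≃ₐ[RatFunc k] L, (∀ a : L, w a ≤ 1 → w (σ a - a) < 1) → σ = 1) ∧
        ∃ (Γ : Type) (_ : LinearOrderedCommGroupWithZero Γ) (w : Valuation L Γ),
          (∀ c : k, c ≠ 0 →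
            w (algebraMap (RatFunc k) L (algebraMap k (RatFunc k) c)) = 1) ∧
          1 < w (algebraMap (RatFunc k) L RatFunc.X) ∧
          ∀ σ : L ≃ₐ[RatFunc k] L,
            (φ σ ∈ I ↔ ∀ a : L, w a ≤ 1 → w (σ a - a) < 1) := by
  have : Fact p.Prime := ⟨hp⟩
  by_cases h7 : p = 7
  · subst h7
    exact assemble (data7 k) h5 (by omega) (by omega) (by decide)
      (fun e _ E => swap_seven _ E) I hI
  · obtain ⟨a, ha, hap, hcop⟩ := exists_a hp h5 h7
    obtain ⟨D⟩ := exists_data (k := k) (p := p) (a := a) (by omega) (by omega)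
    have hodd : p % 2 = 1 := hp.eq_two_or_odd.resolve_left (by omega)
    have hao : Odd a := by
      have h2 : Nat.Coprime a 2 :=
        Nat.Coprime.coprime_dvd_right (by omega) (Nat.Coprime.coprime_mul_right hcop)
      exact Nat.coprime_two_right.mp h2
    exact assemble D h5 ha hap
      (Nat.Coprime.coprime_dvd_right (Nat.div_dvd_of_dvd (by omega)) hcop)
      (fun e he E => swap_odd D _ he rfl ha hap hao E) I hI

end Pool.Agent.H19Z.IC
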