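import Pool.Agent.H19Z.IC.Val2

/-!
Places of the rational function field, existence of valuations, extension of automorphisms
to a splitting field.
-/

set_option autoImplicit false

namespace Pool.Agent.H19Z.IC

open Polynomial

variable {k L Γ : Type*} [Field k] [Field L] [LinearOrderedCommGroupWithZero Γ]

/-- every nonzero rational function is a power of `π` times a unit at `π = 0` -/
def Fac (π : RatFunc k) : Prop :=
  ∀ b : RatFunc k, b ≠ 0 → ∃ j : ℤ, ∃ P Q : k[X], P.eval 0 ≠ 0 ∧ Q.eval 0 ≠ 0 ∧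
    b * aeval π Q = π ^ j * aeval π P

theorem fac_of_poly {π : RatFunc k} (hπ : π ≠ 0)
    (h : ∀ F : k[X], F ≠ 0 → ∃ j : ℤ, ∃ P : k[X], P.eval 0 ≠ 0 ∧
      algebraMap k[X] (RatFunc k) F = π ^ j * aeval π P) : Fac π := by
  intro b hb
  obtain ⟨j1, P, hP, e1⟩ := h b.num (RatFunc.num_ne_zero hb)
  obtain ⟨j2, Q, hQ, e2⟩ := h b.denom b.denom_ne_zero
  refine ⟨j1 - j2, P, Q, hP, hQ, ?_⟩
  have e3 : b * algebraMap k[X] (RatFunc k) b.denom = algebraMap k[X] (RatFunc k) b.num := by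
    have h0 : algebraMap k[X] (RatFunc k) b.denom ≠ 0 :=
      RatFunc.algebraMap_ne_zero b.denom_ne_zero
    conv_lhs => rw [← RatFunc.num_div_denom b]
    rw [RatFunc.num_div_denom, ← eq_div_iff h0, RatFunc.num_div_denom]
  rw [e1, e2] at e3
  rw [zpow_sub₀ hπ, div_mul_eq_mul_div, ← e3]
  have := zpow_ne_zero j2 hπ
  field_simp

theorem aeval_X_ratFunc (F : k[X]) :
    aeval (RatFunc.X : RatFunc k) F = algebraMap k[X] (RatFunc k) F := by
  rw [← RatFunc.algebraMap_X, aeval_algebraMap_apply, aeval_X_left_apply]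

theorem fac_fin (c0 : k) : Fac (RatFunc.X - algebraMap k (RatFunc k) c0) := by
  have hX : (RatFunc.X - algebraMap k (RatFunc k) c0) =
      algebraMap k[X] (RatFunc k) (X - C c0) := by
    rw [← aeval_X_ratFunc]; simp
  apply fac_of_poly
  · rw [hX]; exact RatFunc.algebraMap_ne_zero (X_sub_C_ne_zero c0)
  intro F hF
  obtain ⟨G, hG, hG'⟩ := exists_eq_pow_rootMultiplicity_mul_and_not_dvd F hF c0
  refine ⟨F.rootMultiplicity c0, G.comp (X + C c0), ?_, ?_⟩
  · simpa [dvd_iff_isRoot] using hG'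
  · rw [aeval_comp]
    simp only [map_add, aeval_X, aeval_C, sub_add_cancel, zpow_natCast]
    rw [aeval_X_ratFunc, hX, ← map_pow, ← map_mul, ← hG]

theorem aeval_reverse {A : Type*} [Field A] [Algebra k A] {z : A} (hz : z ≠ 0) (F : k[X]) :
    aeval z F = z ^ F.natDegree * aeval z⁻¹ F.reverse := by
  let : Invertible z := invertibleOfNonzero hz
  have := eval₂_reverse_mul_pow (algebraMap k A) z F
  rw [invOf_eq_inv] at this
  rw [aeval_def, aeval_def, ← this, mul_comm]

theorem fac_inf : Fac (RatFunc.X : RatFunc k)⁻¹ := by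
  apply fac_of_poly (inv_ne_zero RatFunc.X_ne_zero)
  intro F hF
  refine ⟨-F.natDegree, F.reverse, ?_, ?_⟩
  · rw [← coeff_zero_eq_eval_zero, coeff_zero_reverse]; exact leadingCoeff_ne_zero.mpr hF
  · rw [← aeval_X_ratFunc, aeval_reverse RatFunc.X_ne_zero]
    simp

variable [Algebra k L] [Algebra (RatFunc k) L] [IsScalarTower k (RatFunc k) L]

theorem Fac.lead {π : RatFunc k} (hF : Fac π) (b : RatFunc k) (hb : b ≠ 0) :
    ∃ j : ℤ, ∃ c : k, c ≠ 0 ∧ ∀ (Γ : Type) [LinearOrderedCommGroupWithZero Γ]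
      (w : Valuation L Γ), Triv k w → w (algebraMap (RatFunc k) L π) < 1 → π ≠ 0 →
      w (algebraMap (RatFunc k) L b / algebraMap (RatFunc k) L π ^ j - algebraMap k L c) < 1 := by
  obtain ⟨j, P, Q, hP, hQ, e⟩ := hF b hb
  refine ⟨j, P.eval 0 * (Q.eval 0)⁻¹, mul_ne_zero hP (inv_ne_zero hQ), ?_⟩
  intro Γ _ w hw hπ hπ0
  set u := algebraMap (RatFunc k) L π with hu
  have hu0 : u ≠ 0 := by simpa [hu] using hπ0
  have hu1 : w (u - algebraMap k L 0) < 1 := by simpa using hπ
  have h1 := aeval_res hw hu1 P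
  have h2 := aeval_res hw hu1 Q
  have h3 : aeval u Q ≠ 0 := by
    intro h
    have := aeval_eq_one hw hu1 hQ
    rw [h] at this; simp at this
  have e1 := congrArg (algebraMap (RatFunc k) L) e
  rw [map_mul, map_mul, map_zpow₀, ← aeval_algebraMap_apply, ← aeval_algebraMap_apply, ← hu] at e1
  have e2 : algebraMap (RatFunc k) L b / u ^ j = aeval u P * (aeval u Q)⁻¹ := by
    have := zpow_ne_zero j hu0
    field_simp
    rw [e1]
  rw [e2]
  exact res_mul hw h1 (res_inv hw hQ h2)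

theorem Fac.val {π : RatFunc k} (hF : Fac π) (hπ0 : π ≠ 0) (b : RatFunc k) (hb : b ≠ 0) :
    ∃ j : ℤ, ∀ (Γ : Type) [LinearOrderedCommGroupWithZero Γ]
      (w : Valuation L Γ), Triv k w → w (algebraMap (RatFunc k) L π) < 1 →
      w (algebraMap (RatFunc k) L b) = w (algebraMap (RatFunc k) L π) ^ j := by
  obtain ⟨j, c, hc, h⟩ := hF.lead (L := L) b hb
  refine ⟨j, fun Γ _ w hw hπ => ?_⟩
  have h1 := eq_one_of_res hw hc (h Γ w hw hπ hπ0)
  have hu0 : w (algebraMap (RatFunc k) L π) ≠ 0 := by simpa using hπ0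
  rw [map_div₀, map_zpow₀, div_eq_one_iff_eq (zpow_ne_zero j hu0)] at h1
  exact h1

theorem Fac.res {π : RatFunc k} (hF : Fac π) (hπ0 : π ≠ 0) {Γ : Type}
    [LinearOrderedCommGroupWithZero Γ] {w : Valuation L Γ} (hw : Triv k w)
    (hπ : w (algebraMap (RatFunc k) L π) < 1) (b : RatFunc k)
    (hb1 : w (algebraMap (RatFunc k) L b) ≤ 1) :
    ∃ c : k, w (algebraMap (RatFunc k) L b - algebraMap k L c) < 1 := by
  by_cases hb : b = 0
  · exact ⟨0, by simp [hb]⟩
  obtain ⟨j, c, hc, h⟩ := hF.lead (L := L) b hb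
  have h0 := h Γ w hw hπ hπ0
  by_cases hj : j = 0
  · exact ⟨c, by simpa [hj] using h0⟩
  refine ⟨0, ?_⟩
  have h1 := eq_one_of_res hw hc h0
  have hu0 : w (algebraMap (RatFunc k) L π) ≠ 0 := by simpa using hπ0
  rw [map_div₀, map_zpow₀, div_eq_one_iff_eq (zpow_ne_zero j hu0)] at h1
  rw [map_zero, sub_zero]
  refine lt_of_le_of_ne hb1 fun h2 => hj ?_
  rw [h1, ← zpow_zero (w (algebraMap (RatFunc k) L π))] at h2
  exact zpow_right_injective₀ (zero_lt_iff.mpr hu0) hπ.ne h2

theorem Fac.unit_iff {π : RatFunc k} (hF : Fac π) (hπ0 : π ≠ 0) {Γ Γ' : Type}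
    [LinearOrderedCommGroupWithZero Γ] [LinearOrderedCommGroupWithZero Γ']
    {w : Valuation L Γ} {w' : Valuation L Γ'} (hw : Triv k w) (hw' : Triv k w')
    (hπ : w (algebraMap (RatFunc k) L π) < 1) (hπ' : w' (algebraMap (RatFunc k) L π) < 1)
    (b : RatFunc k) (hb1 : w (algebraMap (RatFunc k) L b) = 1) :
    w' (algebraMap (RatFunc k) L b) = 1 := by
  have hb : b ≠ 0 := by rintro rfl; simp at hb1
  obtain ⟨j, hj⟩ := hF.val (L := L) hπ0 b hb
  have h1 := hj Γ w hw hπ
  have hu0 : w (algebraMap (RatFunc k) L π) ≠ 0 := by simpa using hπ0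
  rw [hb1, ← zpow_zero (w (algebraMap (RatFunc k) L π))] at h1
  have h2 : (0 : ℤ) = j := zpow_right_injective₀ (zero_lt_iff.mpr hu0) hπ.ne h1
  rw [hj Γ' w' hw' hπ', ← h2, zpow_zero]

omit [Algebra (RatFunc k) L] [IsScalarTower k (RatFunc k) L] in
theorem exists_val {u : L} (hu : Transcendental k u) :
    ∃ A : ValuationSubring L, Triv k A.valuation ∧ A.valuation u < 1 := by
  let R : Subring L := (aeval u : k[X] →ₐ[k] L).toRingHom.range
  have huR : u ∈ R := ⟨X, by simp⟩
  have hI : Ideal.span {(⟨u, huR⟩ : R)} ≠ ⊤ := by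
    intro h
    have h1 : (1 : R) ∈ Ideal.span {(⟨u, huR⟩ : R)} := by rw [h]; trivial
    obtain ⟨⟨y, Q, rfl⟩, hy⟩ := Ideal.mem_span_singleton'.mp h1
    have h2 : aeval u (Q * X - 1) = 0 := by
      have := congrArg Subtype.val hy
      simp only [map_sub, map_mul, aeval_X, map_one]
      rw [sub_eq_zero]; exact this
    have h3 : Q * X - 1 = 0 := by
      by_contra h0
      exact hu ⟨_, h0, h2⟩
    have := congrArg (eval 0) h3
    simp at this
  obtain ⟨A, hRA, hIA⟩ := Ideal.image_subset_nonunits_valuationSubring _ hI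
  refine ⟨A, fun c hc => ?_, ?_⟩
  · have hm : ∀ d : k, algebraMap k L d ∈ A := fun d => hRA ⟨C d, by simp⟩
    have h1 := (A.valuation_le_one_iff _).mpr (hm c)
    have h2 := (A.valuation_le_one_iff _).mpr (hm c⁻¹)
    have hc0 : algebraMap k L c ≠ 0 := by simpa using hc
    rw [map_inv₀, ← A.valuation.one_le_val_iff hc0] at h2
    exact le_antisymm h1 h2
  · exact (A.mem_nonunits_iff).mp (hIA ⟨⟨u, huR⟩, Ideal.mem_span_singleton_self _, rfl⟩)

omit [Algebra k L] [Algebra (RatFunc k) L] [IsScalarTower k (RatFunc k) L] in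
/-- an automorphism of the base that fixes the polynomial extends to a splitting field -/
theorem exists_extend {K : Type*} [Field K] [Algebra K L] (H : K[X]) (hH : H ≠ 0)
    [IsSplittingField K L H] (φ : K ≃+* K) (hφ : H.map (φ : K →+* K) = H) :
    ∃ Φ : L ≃+* L, ∀ b, Φ (algebraMap K L b) = algebraMap K L (φ b) := by
  classical
  have hs := IsSplittingField.splits L H
  obtain ⟨Φ0, hΦ0⟩ : ∃ Φ0 : L →+* L, ∀ b, Φ0 (algebraMap K L b) = algebraMap K L (φ b) := by
    let alg : Algebra K (ULift.{0} L) :=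
      ((ULift.ringEquiv.symm : L ≃+* ULift.{0} L).toRingHom.comp
        ((algebraMap K L).comp (φ : K →+* K))).toAlgebra
    have hs' : Splits (H.map (@algebraMap K (ULift.{0} L) _ _ alg)) := by
      change Splits (H.map ((ULift.ringEquiv.symm : L ≃+* ULift.{0} L).toRingHom.comp
        ((algebraMap K L).comp (φ : K →+* K))))
      rw [← Polynomial.map_map, ← Polynomial.map_map, hφ]
      exact hs.map _
    let f := @IsSplittingField.lift (ULift.{0} L) K L _ _ _ _ alg H _ hs'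
    refine ⟨(ULift.ringEquiv : ULift.{0} L ≃+* L).toRingHom.comp
      (@AlgHom.toRingHom K L (ULift.{0} L) _ _ _ _ alg f), fun b => ?_⟩
    have := @AlgHom.commutes K L (ULift.{0} L) _ _ _ _ alg f b
    simp only [RingEquiv.toRingHom_eq_coe, RingHom.coe_comp, RingHom.coe_coe, Function.comp_apply]
    change ULift.ringEquiv (f (algebraMap K L b)) = _
    rw [this]
    rfl
  have hcomp : Φ0.comp (algebraMap K L) = (algebraMap K L).comp (φ : K →+* K) :=
    RingHom.ext hΦ0
  have hroot : Set.MapsTo Φ0 (H.rootSet L) (H.rootSet L) := by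
    intro z hz
    rw [mem_rootSet_of_ne hH] at hz ⊢
    have := congrArg Φ0 hz
    rw [aeval_def, hom_eval₂, hcomp, ← eval₂_map, hφ, map_zero] at this
    rw [aeval_def]; exact this
  have hbij := ((H.rootSet_finite L).injOn_iff_bijOn_of_mapsTo hroot).mp Φ0.injective.injOn
  have hsurj : Function.Surjective Φ0 := by
    intro y
    have hy : y ∈ Algebra.adjoin K (H.rootSet L) := by
      rw [IsSplittingField.adjoin_rootSet]; trivial
    induction hy using Algebra.adjoin_induction with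
    | mem x hx => obtain ⟨z, _, hz⟩ := hbij.surjOn hx; exact ⟨z, hz⟩
    | algebraMap r => exact ⟨algebraMap K L (φ.symm r), by rw [hΦ0]; simp⟩
    | add x y _ _ hx hy =>
      obtain ⟨a, rfl⟩ := hx; obtain ⟨b, rfl⟩ := hy; exact ⟨a + b, map_add _ _ _⟩
    | mul x y _ _ hx hy =>
      obtain ⟨a, rfl⟩ := hx; obtain ⟨b, rfl⟩ := hy; exact ⟨a * b, map_mul _ _ _⟩
  exact ⟨RingEquiv.ofBijective Φ0 ⟨Φ0.injective, hsurj⟩, hΦ0⟩

end Pool.Agent.H19Z.IC
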