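import Mathlib

/-!
Valuations on a finite Galois extension, trivial on an infinite constant field.
-/

set_option autoImplicit false

namespace Pool.Agent.H19Z.IC

open Polynomial

variable {k K L Γ Γ' : Type*} [Field k] [Field K] [Field L] [Algebra k L]
  [LinearOrderedCommGroupWithZero Γ] [LinearOrderedCommGroupWithZero Γ']

/-- the valuation is trivial on the constants -/
def Triv (k : Type*) {L Γ : Type*} [Field k] [Field L] [Algebra k L]
    [LinearOrderedCommGroupWithZero Γ] (w : Valuation L Γ) : Prop :=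
  ∀ c : k, c ≠ 0 → w (algebraMap k L c) = 1

theorem Triv.le {w : Valuation L Γ} (h : Triv k w) (c : k) : w (algebraMap k L c) ≤ 1 := by
  by_cases hc : c = 0
  · simp [hc]
  · exact (h c hc).le

theorem Triv.eq_zero {w : Valuation L Γ} (h : Triv k w) {c : k}
    (hc : w (algebraMap k L c) < 1) : c = 0 := by
  by_contra h0
  exact absurd (h c h0) hc.ne

theorem Triv.res_unique {w : Valuation L Γ} (h : Triv k w) {a : L} {c c' : k}
    (h1 : w (a - algebraMap k L c) < 1) (h2 : w (a - algebraMap k L c') < 1) : c = c' := by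
  have : w (algebraMap k L (c - c')) < 1 := by
    have e : algebraMap k L (c - c') = (a - algebraMap k L c') - (a - algebraMap k L c) := by
      rw [map_sub]; ring
    rw [e]; exact w.map_sub_lt h2 h1
  exact sub_eq_zero.mp (h.eq_zero this)

theorem exists_avoid [Infinite k] {ι : Type*} [Finite ι] (P : ι → k → Prop)
    (hP : ∀ i c c', P i c → P i c' → c = c') : ∃ c, c ≠ 0 ∧ ∀ i, ¬ P i c := by
  have hfin : ({0} ∪ ⋃ i, {c | P i c} : Set k).Finite := by
    refine (Set.finite_singleton 0).union (Set.finite_iUnion fun i => ?_)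
    exact Set.Subsingleton.finite (fun c hc c' hc' => hP i c c' hc hc')
  obtain ⟨c, hc⟩ := hfin.exists_notMem
  refine ⟨c, fun h0 => hc (Or.inl h0), fun i hi => hc (Or.inr ?_)⟩
  exact Set.mem_iUnion.mpr ⟨i, hi⟩

theorem aeval_le {w : Valuation L Γ} (h : Triv k w) {y : L} (hy : w y ≤ 1) (Q : k[X]) :
    w (aeval y Q) ≤ 1 := by
  induction Q using Polynomial.induction_on' with
  | add p q hp hq => rw [map_add]; exact w.map_add_le hp hq
  | monomial n c =>
    rw [aeval_monomial, map_mul, map_pow]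
    exact mul_le_one' (h.le c) (pow_le_one' hy n)

theorem pow_taylor (w : Valuation L Γ) {y d : L} (hy : w y ≤ 1) (hd : w d ≤ 1) (n : ℕ) :
    w ((y + d) ^ n - y ^ n - n * y ^ (n - 1) * d) ≤ w d ^ 2 := by
  induction n with
  | zero => simp
  | succ n ih =>
    have e : (y + d) ^ (n + 1) - y ^ (n + 1) - ((n + 1 : ℕ) : L) * y ^ (n + 1 - 1) * d =
        (y + d) * ((y + d) ^ n - y ^ n - n * y ^ (n - 1) * d) + n * y ^ (n - 1) * d ^ 2 := by
      rcases n with _ | n
      · simp
      · simp only [Nat.add_sub_cancel]; push_cast; ring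
    rw [e]
    refine w.map_add_le ?_ ?_
    · rw [map_mul]
      calc w (y + d) * _ ≤ 1 * w d ^ 2 := mul_le_mul' (w.map_add_le hy hd) ih
        _ = _ := one_mul _
    · rw [map_mul, map_mul, map_pow, map_pow]
      have hn : w (n : L) ≤ 1 := by
        induction n with
        | zero => simp
        | succ m ihm => push_cast; exact w.map_add_le (by
            clear ihm ih e
            induction m with
            | zero => simp
            | succ m ihm => push_cast; exact w.map_add_le ihm (by simp)) (by simp)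
      calc w (n : L) * w y ^ (n - 1) * w d ^ 2 ≤ 1 * 1 * w d ^ 2 :=
            mul_le_mul' (mul_le_mul' hn (pow_le_one' hy _)) le_rfl
        _ = _ := by simp

theorem aeval_taylor {w : Valuation L Γ} (h : Triv k w) {y y' : L} (hy : w y ≤ 1)
    (hy' : w y' ≤ 1) (Q : k[X]) :
    w (aeval y' Q - aeval y Q - aeval y (derivative Q) * (y' - y)) ≤ w (y' - y) ^ 2 := by
  have hd : w (y' - y) ≤ 1 := w.map_sub_le hy' hy
  induction Q using Polynomial.induction_on' with
  | add p q hp hq =>
    have e : aeval y' (p + q) - aeval y (p + q) - aeval y (derivative (p + q)) * (y' - y) =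
        (aeval y' p - aeval y p - aeval y (derivative p) * (y' - y)) +
        (aeval y' q - aeval y q - aeval y (derivative q) * (y' - y)) := by
      simp only [map_add]; ring
    rw [e]; exact w.map_add_le hp hq
  | monomial n c =>
    have e : aeval y' (monomial n c) - aeval y (monomial n c) -
        aeval y (derivative (monomial n c)) * (y' - y) =
        algebraMap k L c * ((y + (y' - y)) ^ n - y ^ n - n * y ^ (n - 1) * (y' - y)) := by
      simp only [derivative_monomial, aeval_monomial, map_mul, map_natCast, add_sub_cancel]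
      ring
    rw [e, map_mul]
    calc _ ≤ 1 * w (y' - y) ^ 2 := mul_le_mul' (h.le c) (pow_taylor w hy hd n)
      _ = _ := one_mul _

theorem aeval_sub_le {w : Valuation L Γ} (h : Triv k w) {y y' : L} (hy : w y ≤ 1)
    (hy' : w y' ≤ 1) (Q : k[X]) : w (aeval y' Q - aeval y Q) ≤ w (y' - y) := by
  have hd : w (y' - y) ≤ 1 := w.map_sub_le hy' hy
  have e : aeval y' Q - aeval y Q =
      (aeval y' Q - aeval y Q - aeval y (derivative Q) * (y' - y)) +
        aeval y (derivative Q) * (y' - y) := by ring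
  rw [e]
  refine w.map_add_le ((aeval_taylor h hy hy' Q).trans ?_) ?_
  · rw [pow_two]
    calc _ ≤ 1 * w (y' - y) := mul_le_mul' hd le_rfl
      _ = _ := one_mul _
  · rw [map_mul]
    calc _ ≤ 1 * w (y' - y) := mul_le_mul' (aeval_le h hy _) le_rfl
      _ = _ := one_mul _

theorem le_of_res {w : Valuation L Γ} (h : Triv k w) {y : L} {c : k}
    (hy : w (y - algebraMap k L c) < 1) : w y ≤ 1 := by
  have e : y = (y - algebraMap k L c) + algebraMap k L c := by ring
  rw [e]; exact w.map_add_le hy.le (h.le c)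

theorem eq_one_of_res {w : Valuation L Γ} (h : Triv k w) {y : L} {c : k} (hc : c ≠ 0)
    (hy : w (y - algebraMap k L c) < 1) : w y = 1 := by
  have e : y = (y - algebraMap k L c) + algebraMap k L c := by ring
  rw [e, w.map_add_eq_of_lt_right (by rw [h c hc]; exact hy), h c hc]

theorem aeval_res {w : Valuation L Γ} (h : Triv k w) {y : L} {c : k}
    (hy : w (y - algebraMap k L c) < 1) (Q : k[X]) :
    w (aeval y Q - algebraMap k L (Q.eval c)) < 1 := by
  have := aeval_sub_le h (h.le c) (le_of_res h hy) Q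
  rw [aeval_algebraMap_apply, coe_aeval_eq_eval] at this
  exact this.trans_lt hy

theorem aeval_eq_one {w : Valuation L Γ} (h : Triv k w) {y : L} {c : k}
    (hy : w (y - algebraMap k L c) < 1) {Q : k[X]} (hQ : Q.eval c ≠ 0) : w (aeval y Q) = 1 :=
  eq_one_of_res h hQ (aeval_res h hy Q)

theorem pow_sub_one_val {w : Valuation L Γ} (h : Triv k w) {s : L} (hs : w (s - 1) < 1) {n : ℕ}
    (hn : (n : k) ≠ 0) : w (s ^ n - 1) = w (s - 1) := by
  by_cases h0 : s - 1 = 0
  · have : s = 1 := sub_eq_zero.mp h0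
    simp [this]
  have h1 := pow_taylor w (y := 1) (d := s - 1) (by simp) hs.le n
  have hn1 : w (n : L) = 1 := by simpa using h n hn
  have e : s ^ n - 1 = ((1 + (s - 1)) ^ n - 1 ^ n - n * 1 ^ (n - 1) * (s - 1)) + n * (s - 1) := by
    simp
  have hv : w (n * (s - 1) : L) = w (s - 1) := by rw [map_mul, hn1, one_mul]
  rw [e, w.map_add_eq_of_lt_right, hv]
  rw [hv]
  refine h1.trans_lt ?_
  rw [pow_two]
  have hp : 0 < w (s - 1) := (w.pos_iff).mpr h0
  exact mul_lt_of_lt_one_left hp hs

theorem res_mul {w : Valuation L Γ} (h : Triv k w) {y y' : L} {c c' : k}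
    (hy : w (y - algebraMap k L c) < 1) (hy' : w (y' - algebraMap k L c') < 1) :
    w (y * y' - algebraMap k L (c * c')) < 1 := by
  have e : y * y' - algebraMap k L (c * c') =
      (y - algebraMap k L c) * y' + algebraMap k L c * (y' - algebraMap k L c') := by
    rw [map_mul]; ring
  rw [e]
  refine w.map_add_lt ?_ ?_
  · rw [map_mul]; exact mul_lt_one_of_lt_of_le hy (le_of_res h hy')
  · rw [map_mul, mul_comm]; exact mul_lt_one_of_lt_of_le hy' (h.le c)

theorem res_pow {w : Valuation L Γ} (h : Triv k w) {y : L} {c : k}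
    (hy : w (y - algebraMap k L c) < 1) (n : ℕ) : w (y ^ n - algebraMap k L (c ^ n)) < 1 := by
  induction n with
  | zero => simp
  | succ n ih => rw [pow_succ, pow_succ]; exact res_mul h ih hy

theorem res_inv {w : Valuation L Γ} (h : Triv k w) {y : L} {c : k} (hc : c ≠ 0)
    (hy : w (y - algebraMap k L c) < 1) : w (y⁻¹ - algebraMap k L c⁻¹) < 1 := by
  have h1 := eq_one_of_res h hc hy
  have hy0 : y ≠ 0 := by rintro rfl; simp at h1
  have hc0 : algebraMap k L c ≠ 0 := by simpa using hc
  have e : y⁻¹ - algebraMap k L c⁻¹ = - (y - algebraMap k L c) / (y * algebraMap k L c) := by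
    rw [map_inv₀]; field_simp; ring
  rw [e, map_div₀, map_mul, h1, h c hc, w.map_neg]
  simpa using hy

variable [Algebra K L] [Algebra k K] [IsScalarTower k K L]

theorem gal_const (σ : L ≃ₐ[K] L) (c : k) : σ (algebraMap k L c) = algebraMap k L c := by
  rw [IsScalarTower.algebraMap_apply k K L, σ.commutes]

theorem normalise [Infinite k] [FiniteDimensional K L] {w : Valuation L Γ} (hw : Triv k w)
    (a : L) : ∃ c : k, c ≠ 0 ∧ (∀ τ : L ≃ₐ[K] L, w (τ (a / (a - algebraMap k L c))) ≤ 1) ∧
      ∀ τ : L ≃ₐ[K] L, 1 ≤ w (τ a) → w (τ (a / (a - algebraMap k L c))) = 1 := by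
  obtain ⟨c, hc0, hc⟩ := exists_avoid (k := k)
    (fun (τ : L ≃ₐ[K] L) c => w (τ a - algebraMap k L c) < 1)
    (fun τ c c' h1 h2 => hw.res_unique h1 h2)
  have key : ∀ τ : L ≃ₐ[K] L, 1 ≤ w (τ a) → w (τ (a / (a - algebraMap k L c))) = 1 := by
    intro τ h1
    have h2 : 1 ≤ w (τ a - algebraMap k L c) := not_lt.mp (hc τ)
    rw [map_div₀, map_sub, gal_const, map_div₀]
    rcases h1.lt_or_eq with h1 | h1
    · rw [w.map_sub_eq_of_lt_left (by rw [hw c hc0]; exact h1)]
      exact div_self (ne_of_gt (lt_trans zero_lt_one h1))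
    · have h3 : w (τ a - algebraMap k L c) ≤ 1 := w.map_sub_le h1.ge (hw.le c)
      rw [le_antisymm h3 h2, ← h1, div_one]
  refine ⟨c, hc0, fun τ => ?_, key⟩
  rcases le_or_gt 1 (w (τ a)) with h1 | h1
  · exact (key τ h1).le
  · have h2 : 1 ≤ w (τ a - algebraMap k L c) := not_lt.mp (hc τ)
    rw [map_div₀, map_sub, gal_const, map_div₀]
    exact div_le_one_of_le₀ (h1.le.trans h2) zero_le

theorem core [Infinite k] [FiniteDimensional K L] {w : Valuation L Γ} {w' : Valuation L Γ'}
    (hw : Triv k w) (hw' : Triv k w') (S : Finset (L ≃ₐ[K] L))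
    (hS : ∀ σ ∈ S, ∃ a, w' a < 1 ∧ 1 ≤ w (σ a)) :
    ∃ c, w' c < 1 ∧ (∀ τ : L ≃ₐ[K] L, w (τ c) ≤ 1) ∧ ∀ σ ∈ S, w (σ c) = 1 := by
  classical
  induction S using Finset.induction_on with
  | empty => exact ⟨0, by simp, by simp, by simp⟩
  | insert σ S hσ ih =>
    obtain ⟨c, hc1, hc2, hc3⟩ := ih (fun τ hτ => hS τ (Finset.mem_insert_of_mem hτ))
    obtain ⟨a, ha1, ha2⟩ := hS σ (Finset.mem_insert_self _ _)
    obtain ⟨d, hd0, hd1, hd2⟩ := normalise (K := K) hw a
    set b := a / (a - algebraMap k L d) with hb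
    have hb1 : w' b < 1 := by
      rw [hb, map_div₀, w'.map_sub_eq_of_lt_right (by rw [hw' d hd0]; exact ha1), hw' d hd0,
        div_one]
      exact ha1
    obtain ⟨l, hl0, hl⟩ := exists_avoid (k := k)
      (fun (τ : L ≃ₐ[K] L) l => τ ∈ insert σ S ∧ w (τ c + algebraMap k L l * τ b) < 1)
      (by
        rintro τ l l' ⟨hτ, h1⟩ ⟨_, h2⟩
        by_contra hne
        have h3 : w (algebraMap k L (l - l') * τ b) < 1 := by
          have e : algebraMap k L (l - l') * τ b =
              (τ c + algebraMap k L l * τ b) - (τ c + algebraMap k L l' * τ b) := by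
            rw [map_sub]; ring
          rw [e]; exact w.map_sub_lt h1 h2
        rw [map_mul, hw _ (sub_ne_zero.mpr hne), one_mul] at h3
        have h4 : w (τ c) < 1 := by
          have e : τ c = (τ c + algebraMap k L l * τ b) - algebraMap k L l * τ b := by ring
          rw [e]
          refine w.map_sub_lt h1 ?_
          rw [map_mul, mul_comm]; exact mul_lt_one_of_lt_of_le h3 (hw.le l)
        rcases Finset.mem_insert.mp hτ with rfl | hτ
        · exact absurd (hd2 τ ha2) h3.ne
        · exact absurd (hc3 τ hτ) h4.ne)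
    have hle : ∀ τ : L ≃ₐ[K] L, w (τ (c + algebraMap k L l * b)) ≤ 1 := by
      intro τ
      rw [map_add, map_mul, gal_const]
      refine w.map_add_le (hc2 τ) ?_
      rw [map_mul]; exact mul_le_one' (hw.le l) (hd1 τ)
    refine ⟨c + algebraMap k L l * b, ?_, hle, fun τ hτ => le_antisymm (hle τ) ?_⟩
    · refine w'.map_add_lt hc1 ?_
      rw [map_mul, mul_comm]; exact mul_lt_one_of_lt_of_le hb1 (hw'.le l)
    · rw [map_add, map_mul, gal_const]
      exact not_lt.mp (fun h => hl τ ⟨hτ, h⟩)

theorem prod_lt_one_of {ι : Type*} [Fintype ι] (f : ι → Γ) (h : ∀ i, f i ≤ 1) (j : ι)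
    (hj : f j < 1) : ∏ i, f i < 1 := by
  classical
  rw [← Finset.mul_prod_erase Finset.univ f (Finset.mem_univ j)]
  exact mul_lt_one_of_lt_of_le hj (Finset.prod_le_one' fun i _ => h i)

theorem one_lt_prod_of {ι : Type*} [Fintype ι] (f : ι → Γ) (h : ∀ i, 1 ≤ f i) (j : ι)
    (hj : 1 < f j) : 1 < ∏ i, f i := by
  classical
  rw [← Finset.mul_prod_erase Finset.univ f (Finset.mem_univ j)]
  exact hj.trans_le (le_mul_of_one_le_right' (Finset.one_le_prod' fun i _ => h i))

/-- conjugacy of the extensions of a valuation -/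
theorem conj [Infinite k] [FiniteDimensional K L] [IsGalois K L] {w : Valuation L Γ}
    {w' : Valuation L Γ'} (hw : Triv k w) (hw' : Triv k w')
    (hK : ∀ b : K, w (algebraMap K L b) = 1 → w' (algebraMap K L b) = 1) :
    ∃ σ : L ≃ₐ[K] L, ∀ a, w' a < 1 → w (σ a) < 1 := by
  classical
  by_contra hcon
  push Not at hcon
  obtain ⟨c, hc1, hc2, hc3⟩ := core (K := K) hw hw' Finset.univ (fun σ _ => hcon σ)
  have hN : ∀ y : L, (∀ τ : L ≃ₐ[K] L, w (τ y) = 1) → ∏ τ : L ≃ₐ[K] L, w' (τ y) = 1 := by
    intro y hy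
    rw [← map_prod, ← Algebra.norm_eq_prod_automorphisms]
    apply hK
    rw [Algebra.norm_eq_prod_automorphisms, map_prod]
    exact Finset.prod_eq_one fun τ _ => hy τ
  have hle : ∀ τ : L ≃ₐ[K] L, w' (τ c) ≤ 1 := by
    intro τ0
    by_contra hlt
    push Not at hlt
    obtain ⟨l, hl0, hl⟩ := exists_avoid (k := k)
      (fun (τ : (L ≃ₐ[K] L) × Bool) l => if τ.2 then w (τ.1 c - algebraMap k L l) < 1
        else w' (τ.1 c - algebraMap k L l) < 1)
      (by
        rintro ⟨τ, b⟩ l l' h1 h2
        cases b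
        · exact hw'.res_unique h1 h2
        · exact hw.res_unique h1 h2)
    have h1 := hN (c - algebraMap k L l) (fun τ => by
      rw [map_sub, gal_const]
      exact le_antisymm (w.map_sub_le (hc2 τ) (hw.le l)) (not_lt.mp (hl (τ, true))))
    have h2 := one_lt_prod_of (fun τ : L ≃ₐ[K] L => w' (τ (c - algebraMap k L l)))
      (fun τ => by
        rw [map_sub, gal_const]
        exact not_lt.mp (hl (τ, false))) τ0
      (by
        rw [map_sub, gal_const, w'.map_sub_eq_of_lt_left (by rw [hw' l hl0]; exact hlt)]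
        exact hlt)
    exact absurd h1 h2.ne'
  have h1 := hN c (fun τ => hc3 τ (Finset.mem_univ τ))
  have h2 := prod_lt_one_of (fun τ : L ≃ₐ[K] L => w' (τ c)) hle 1 (by simpa using hc1)
  exact absurd h1 h2.ne

end Pool.Agent.H19Z.IC
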