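import Pool.Agent.H19Z.IC.Val

/-!
The inertia group of a valuation; the order of the inertia group kills the value group modulo
the value group of the base.
-/

set_option autoImplicit false

namespace Pool.Agent.H19Z.IC

open Polynomial

variable {k K L Γ : Type*} [Field k] [Field K] [Field L] [Algebra k L]
  [LinearOrderedCommGroupWithZero Γ] [Algebra K L]

theorem prod_range_lt_one (f : ℕ → Γ) (h : ∀ i, f i < 1) (n : ℕ) (hn : 0 < n) :
    ∏ i ∈ Finset.range n, f i < 1 := by
  obtain ⟨m, rfl⟩ : ∃ m, n = m + 1 := ⟨n - 1, by omega⟩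
  rw [Finset.prod_range_succ, mul_comm]
  exact mul_lt_one_of_lt_of_le (h m) (Finset.prod_le_one' fun i _ => (h i).le)

theorem val_eq_of_lt [FiniteDimensional K L] {w : Valuation L Γ} (σ : L ≃ₐ[K] L)
    (hσ : ∀ a, w a < 1 → w (σ a) < 1) (a : L) : w (σ a) = w a := by
  have hpow : ∀ (n : ℕ) a, w a < 1 → w ((σ ^ n) a) < 1 := by
    intro n
    induction n with
    | zero => intro a ha; simpa using ha
    | succ n ih => intro a ha; rw [pow_succ', AlgEquiv.mul_apply]; exact hσ _ (ih a ha)
  by_cases ha : a = 0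
  · simp [ha]
  have hne : ∀ n : ℕ, (σ ^ n) a ≠ 0 := fun n => (_root_.map_ne_zero _).mpr ha
  have tel : ∀ n : ℕ, ∏ i ∈ Finset.range n, (σ ^ i) (σ a / a) = (σ ^ n) a / a := by
    intro n
    induction n with
    | zero => simp [ha]
    | succ n ih =>
      rw [Finset.prod_range_succ, ih, map_div₀, ← AlgEquiv.mul_apply, ← pow_succ]
      have := hne n
      field_simp
  have hN : 0 < orderOf σ := orderOf_pos σ
  have h1 : ∏ i ∈ Finset.range (orderOf σ), (σ ^ i) (σ a / a) = 1 := by
    rw [tel, pow_orderOf_eq_one]; simp [ha]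
  have hσa : σ a ≠ 0 := by simpa using ha
  have hwa : 0 < w a := w.pos_iff.mpr ha
  have hwσ : 0 < w (σ a) := w.pos_iff.mpr hσa
  rcases lt_trichotomy (w (σ a)) (w a) with h | h | h
  · exfalso
    have h2 : w (σ a / a) < 1 := by rw [map_div₀]; exact (div_lt_one₀ hwa).mpr h
    have h3 := prod_range_lt_one (fun i => w ((σ ^ i) (σ a / a))) (fun i => hpow i _ h2) _ hN
    rw [← map_prod, h1] at h3
    simp at h3
  · exact h
  · exfalso
    have h2 : w (σ a / a)⁻¹ < 1 := by rw [inv_div, map_div₀]; exact (div_lt_one₀ hwσ).mpr h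
    have h3 := prod_range_lt_one (fun i => w ((σ ^ i) (σ a / a)⁻¹)) (fun i => hpow i _ h2) _ hN
    rw [← map_prod] at h3
    simp only [map_inv₀, Finset.prod_inv_distrib, h1] at h3
    simp at h3

theorem lt_of_inert {w : Valuation L Γ} {σ : L ≃ₐ[K] L}
    (hσ : ∀ a, w a ≤ 1 → w (σ a - a) < 1) (a : L) (ha : w a < 1) : w (σ a) < 1 := by
  have e : σ a = (σ a - a) + a := by ring
  rw [e]; exact w.map_add_lt (hσ a ha.le) ha

/-- the inertia group -/
def inertia (K : Type*) [Field K] [Algebra K L] [FiniteDimensional K L] (w : Valuation L Γ) :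
    Subgroup (L ≃ₐ[K] L) where
  carrier := {σ | ∀ a, w a ≤ 1 → w (σ a - a) < 1}
  one_mem' := by intro a _; simp
  mul_mem' := by
    intro σ τ hσ hτ a ha
    have e : (σ * τ) a - a = σ (τ a - a) + (σ a - a) := by
      rw [AlgEquiv.mul_apply, map_sub]; ring
    rw [e]
    exact w.map_add_lt (lt_of_inert hσ _ (hτ a ha)) (hσ a ha)
  inv_mem' := by
    intro σ hσ a ha
    have h1 : w (σ⁻¹ a) = w a := by
      rw [← val_eq_of_lt σ (lt_of_inert hσ) (σ⁻¹ a), ← AlgEquiv.mul_apply, mul_inv_cancel]
      rfl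
    have h2 := hσ (σ⁻¹ a) (h1 ▸ ha)
    rw [← AlgEquiv.mul_apply, mul_inv_cancel, AlgEquiv.one_apply, w.map_sub_swap] at h2
    exact h2

theorem mem_inertia [FiniteDimensional K L] {w : Valuation L Γ} {σ : L ≃ₐ[K] L} :
    σ ∈ inertia K w ↔ ∀ a, w a ≤ 1 → w (σ a - a) < 1 := Iff.rfl

theorem inertia_val [FiniteDimensional K L] {w : Valuation L Γ} {σ : L ≃ₐ[K] L}
    (h : σ ∈ inertia K w) (a : L) : w (σ a) = w a :=
  val_eq_of_lt σ (lt_of_inert h) a

theorem exists_pow_val [FiniteDimensional K L] (w : Valuation L Γ) {a : L} (ha : a ≠ 0) :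
    ∃ j : ℕ, 0 < j ∧ ∃ b : K, b ≠ 0 ∧ w a ^ j = w (algebraMap K L b) := by
  classical
  by_contra hcon
  push Not at hcon
  have hint : IsIntegral K a := IsIntegral.of_finite K a
  set P := minpoly K a with hP
  have h0 : aeval a P = 0 := minpoly.aeval K a
  rw [aeval_eq_sum_range] at h0
  set n := P.natDegree with hn
  set f : ℕ → L := fun i => P.coeff i • a ^ i with hf
  obtain ⟨i, hi, hmax⟩ := Finset.exists_max_image (Finset.range (n + 1)) (fun i => w (f i))
    ⟨0, by simp⟩
  have hwa : 0 < w a := w.pos_iff.mpr ha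
  have hpos : 0 < w (f i) := by
    refine lt_of_lt_of_le ?_ (hmax n (by simp))
    have : P.coeff n = 1 := minpoly.monic hint
    simp only [hf, this, one_smul, map_pow]
    exact pow_pos hwa n
  have hval : ∀ j, w (f j) = w (algebraMap K L (P.coeff j)) * w a ^ j := by
    intro j; simp only [hf, Algebra.smul_def, map_mul, map_pow]
  have hdist : ∀ i j, i < j → 0 < w (f i) → w (f i) ≠ w (f j) := by
    intro i j hij hp heq
    have hci : P.coeff i ≠ 0 := by
      intro h; rw [hval, h] at hp; simp at hp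
    have hcj : P.coeff j ≠ 0 := by
      intro h; rw [heq, hval, h] at hp; simp at hp
    refine hcon (j - i) (by omega) (P.coeff i / P.coeff j) (div_ne_zero hci hcj) ?_
    rw [hval, hval] at heq
    have hj0 : w (algebraMap K L (P.coeff j)) ≠ 0 := by simpa using hcj
    rw [map_div₀, map_div₀, eq_div_iff hj0]
    have e : w a ^ j = w a ^ (j - i) * w a ^ i := by rw [← pow_add]; congr 1; omega
    rw [e, ← mul_assoc] at heq
    rw [mul_comm]
    exact (mul_right_cancel₀ (pow_ne_zero i hwa.ne') heq).symm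
  have := w.map_sum_eq_of_lt (s := Finset.range (n + 1)) (f := f) hi (by
    intro j hj
    have hj1 := (Finset.mem_sdiff.mp hj).1
    have hj2 : j ≠ i := by simpa using (Finset.mem_sdiff.mp hj).2
    refine lt_of_le_of_ne (hmax j hj1) fun heq => ?_
    rcases lt_or_gt_of_ne hj2 with h | h
    · exact hdist j i h (heq ▸ hpos) heq
    · exact hdist i j h hpos heq.symm)
  rw [h0] at this
  rw [← this] at hpos
  simp at hpos

theorem exists_res [IsAlgClosed k] [FiniteDimensional K L] {w : Valuation L Γ} (hw : Triv k w)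
    (hres : ∀ b : K, w (algebraMap K L b) ≤ 1 →
      ∃ c : k, w (algebraMap K L b - algebraMap k L c) < 1)
    {a : L} (ha : w a ≤ 1) : ∃ c : k, w (a - algebraMap k L c) < 1 := by
  classical
  by_contra hcon
  push Not at hcon
  have hone : ∀ c : k, w (a - algebraMap k L c) = 1 := fun c =>
    le_antisymm (w.map_sub_le ha (hw.le c)) (hcon c)
  have hint : IsIntegral K a := IsIntegral.of_finite K a
  set P := minpoly K a with hP
  have h0 : aeval a P = 0 := minpoly.aeval K a
  rw [aeval_eq_sum_range] at h0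
  set n := P.natDegree with hn
  obtain ⟨i, hi, hmax⟩ := Finset.exists_max_image (Finset.range (n + 1))
    (fun i => w (algebraMap K L (P.coeff i))) ⟨0, by simp⟩
  have hpos : 0 < w (algebraMap K L (P.coeff i)) := by
    refine lt_of_lt_of_le ?_ (hmax n (by simp))
    have : P.coeff n = 1 := minpoly.monic hint
    simp [this]
  have hci : P.coeff i ≠ 0 := by intro h; rw [h] at hpos; simp at hpos
  have hle : ∀ j, ∃ c : k, j ∈ Finset.range (n + 1) →
      w (algebraMap K L (P.coeff j / P.coeff i) - algebraMap k L c) < 1 := by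
    intro j
    by_cases hj : j ∈ Finset.range (n + 1)
    · obtain ⟨c, hc⟩ := hres (P.coeff j / P.coeff i) (by
        rw [map_div₀, map_div₀]; exact div_le_one_of_le₀ (hmax j hj) zero_le)
      exact ⟨c, fun _ => hc⟩
    · exact ⟨0, fun h => absurd h hj⟩
  choose c hc using hle
  have hci1 : c i = 1 := by
    have h1 := hc i hi
    rw [div_self hci, map_one] at h1
    exact hw.res_unique h1 (by simp)
  set Q : k[X] := ∑ j ∈ Finset.range (n + 1), monomial j (c j) with hQ
  have hQ0 : Q ≠ 0 := by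
    intro h
    have : Q.coeff i = c i := by
      simp only [hQ, finsetSum_coeff, coeff_monomial]
      rw [Finset.sum_ite_eq' (Finset.range (n + 1)) i c, if_pos hi]
    rw [h, hci1] at this
    simp at this
  have hsmall : w (aeval a Q) < 1 := by
    have e : aeval a Q = - ∑ j ∈ Finset.range (n + 1),
        (algebraMap K L (P.coeff j / P.coeff i) - algebraMap k L (c j)) * a ^ j := by
      have h2 : ∑ j ∈ Finset.range (n + 1), algebraMap K L (P.coeff j / P.coeff i) * a ^ j = 0 := by
        have : ∀ j, algebraMap K L (P.coeff j / P.coeff i) * a ^ j =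
            (algebraMap K L (P.coeff i))⁻¹ * (P.coeff j • a ^ j) := by
          intro j; rw [map_div₀, Algebra.smul_def]; ring
        simp only [this]
        rw [← Finset.mul_sum, h0, mul_zero]
      simp only [sub_mul, Finset.sum_sub_distrib, h2, zero_sub, neg_neg, hQ, map_sum,
        aeval_monomial]
    rw [e, w.map_neg]
    refine w.map_sum_lt one_ne_zero fun j hj => ?_
    rw [map_mul, map_pow]
    exact mul_lt_one_of_lt_of_le (hc j hj) (pow_le_one' ha j)
  have hsplit := (IsAlgClosed.splits Q).eq_prod_roots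
  rw [hsplit, map_mul, map_mul, aeval_C, hw _ (leadingCoeff_ne_zero.mpr hQ0), one_mul,
    map_multiset_prod, map_multiset_prod, Multiset.map_map, Multiset.map_map] at hsmall
  have : (Multiset.map (⇑w ∘ ⇑(aeval a) ∘ fun r => X - C r) Q.roots).prod = 1 := by
    apply Multiset.prod_eq_one
    intro x hx
    obtain ⟨r, _, rfl⟩ := Multiset.mem_map.mp hx
    simpa using hone r
  simp only [Function.comp_assoc] at hsmall
  rw [this] at hsmall
  exact lt_irrefl _ hsmall

variable [Algebra k K] [IsScalarTower k K L]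

/-- the order of the inertia group kills values modulo base values -/
theorem pow_card_inertia [Infinite k] [FiniteDimensional K L] [IsGalois K L]
    {w : Valuation L Γ} (hw : Triv k w) (γ : Γ) (hγ0 : 0 < γ) (hγ : γ < 1)
    (hval : ∀ b : K, b ≠ 0 → ∃ j : ℤ, w (algebraMap K L b) = γ ^ j)
    (hres : ∀ a : L, w a ≤ 1 → ∃ c : k, w (a - algebraMap k L c) < 1)
    {a : L} (ha : a ≠ 0) : ∃ j : ℤ, w a ^ Nat.card (inertia K w) = γ ^ j := by
  classical
  wlog hlt : w a < 1 generalizing a
  · rcases (not_lt.mp hlt).lt_or_eq with h | h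
    · obtain ⟨j, hj⟩ := this (inv_ne_zero ha) ((w.one_lt_val_iff ha).mp h)
      refine ⟨-j, ?_⟩
      rw [zpow_neg, ← hj, map_inv₀, inv_pow, inv_inv]
    · exact ⟨0, by simp [← h]⟩
  obtain ⟨d, hd0, hd1, -⟩ := normalise (K := K) hw a
  set b := a / (a - algebraMap k L d) with hb
  have hba : w b = w a := by
    rw [hb, map_div₀, w.map_sub_eq_of_lt_right (by rw [hw d hd0]; exact hlt), hw d hd0, div_one]
  have hwa : 0 < w a := w.pos_iff.mpr ha
  obtain ⟨c, hc1, hc2, hc3⟩ := core (K := K) hw hw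
    (Finset.univ.filter fun σ => σ ∉ inertia K w) (by
      intro σ hσ
      have h1 := (Finset.mem_filter.mp hσ).2
      rw [mem_inertia] at h1
      push Not at h1
      obtain ⟨y, hy1, hy2⟩ := h1
      obtain ⟨e, he⟩ := hres y hy1
      refine ⟨y - algebraMap k L e, he, ?_⟩
      by_contra h3
      push Not at h3
      have e1 : σ y - y = σ (y - algebraMap k L e) - (y - algebraMap k L e) := by
        rw [map_sub, gal_const]; ring
      rw [e1] at hy2
      exact absurd (w.map_sub_lt h3 he) (not_lt.mpr hy2))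
  have harch : ∃ N : ℕ, w c ^ N < w a := by
    by_cases hc0 : c = 0
    · exact ⟨1, by simpa [hc0] using hwa⟩
    obtain ⟨j1, hj1, b1, hb1, e1⟩ := exists_pow_val (K := K) w hc0
    obtain ⟨j2, hj2, b2, hb2, e2⟩ := exists_pow_val (K := K) w ha
    obtain ⟨i1, hi1⟩ := hval b1 hb1
    obtain ⟨i2, hi2⟩ := hval b2 hb2
    rw [hi1] at e1
    rw [hi2] at e2
    have hi1pos : 0 < i1 := by
      have : γ ^ i1 < 1 := by rw [← e1]; exact pow_lt_one₀ zero_le hc1 hj1.ne'
      exact (zpow_lt_one_iff_right_of_lt_one₀ hγ0 hγ).mp this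
    refine ⟨j1 * (i2.natAbs + 1), ?_⟩
    rw [pow_mul, e1, ← zpow_natCast, ← zpow_mul]
    have h3 : γ ^ i2 ≤ w a := by
      rw [← e2]
      exact pow_le_of_le_one zero_le hlt.le hj2.ne'
    refine lt_of_lt_of_le (zpow_lt_zpow_right_of_lt_one₀ hγ0 hγ ?_) h3
    have : i2 ≤ i2.natAbs := Int.le_natAbs
    push_cast
    nlinarith [abs_nonneg i2, le_abs_self i2]
  obtain ⟨N, hN⟩ := harch
  obtain ⟨l, hl0, hl⟩ := exists_avoid (k := k)
    (fun (τ : L ≃ₐ[K] L) l => τ ∉ inertia K w ∧ w (τ b + algebraMap k L l * τ c ^ N) < 1)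
    (by
      rintro τ l l' ⟨hτ, h1⟩ ⟨_, h2⟩
      by_contra hne
      have h3 : w (algebraMap k L (l - l') * τ c ^ N) < 1 := by
        have e : algebraMap k L (l - l') * τ c ^ N =
            (τ b + algebraMap k L l * τ c ^ N) - (τ b + algebraMap k L l' * τ c ^ N) := by
          rw [map_sub]; ring
        rw [e]; exact w.map_sub_lt h1 h2
      rw [map_mul, hw _ (sub_ne_zero.mpr hne), one_mul, map_pow,
        hc3 τ (by simpa using hτ)] at h3
      simp at h3)
  set a' := b + algebraMap k L l * c ^ N with ha'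
  have h1 : w a' = w a := by
    rw [ha', w.map_add_eq_of_lt_left, hba]
    rw [map_mul, hw l hl0, one_mul, map_pow, hba]
    exact hN
  have h2 : ∀ τ : L ≃ₐ[K] L, τ ∉ inertia K w → w (τ a') = 1 := by
    intro τ hτ
    rw [ha', map_add, map_mul, gal_const, map_pow]
    refine le_antisymm (w.map_add_le (hd1 τ) ?_) (not_lt.mp fun h => hl τ ⟨hτ, h⟩)
    rw [map_mul, map_pow]
    exact mul_le_one' (hw.le l) (pow_le_one' (hc2 τ) N)
  have ha'0 : a' ≠ 0 := by
    intro h; rw [h] at h1; rw [← h1] at hwa; simp at hwa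
  obtain ⟨j, hj⟩ := hval (Algebra.norm K a') (Algebra.norm_ne_zero_iff.mpr ha'0)
  refine ⟨j, ?_⟩
  rw [← hj, Algebra.norm_eq_prod_automorphisms, map_prod,
    ← Finset.prod_filter_mul_prod_filter_not Finset.univ (fun τ => τ ∈ inertia K w),
    Finset.prod_eq_one (s := Finset.univ.filter fun τ => τ ∉ inertia K w)
      (fun τ hτ => h2 τ (by simpa using hτ)), mul_one,
    Finset.prod_congr rfl (g := fun _ => w a)
      (fun τ hτ => by rw [inertia_val (by simpa using hτ), h1]),
    Finset.prod_const]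
  congr 1
  rw [Nat.card_eq_fintype_card, Fintype.card_subtype]

end Pool.Agent.H19Z.IC
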